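import Pool.Agent.T3h47.PC.Loc

/-!
# Tower growth with few patterns
-/

set_option autoImplicit false

namespace Pool.Agent.T3h47.PC

open Finset Pool.Agent.T3h47.CD Pool.Agent.N584.TI

variable {κ : Type}

/-- Few patterns. -/
def PB (Bb : ℕ → ℕ) (r₀ : ℕ) (r N : ℕ) (c : Finset ℕ → κ) : Prop :=
  ∀ k, patternCount r c N k ≤ k ^ ((r - r₀) * k) * Bb k

theorem hered_PB [Finite κ] (Bb : ℕ → ℕ) (r₀ : ℕ) : Hered (κ := κ) (PB Bb r₀) :=
  fun _ _ _ _ hN h k => (patternCount_mono hN).trans (h k)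

theorem patternCount_const (r N k : ℕ) (b : κ) : patternCount r (fun _ => b) N k ≤ 1 := by
  unfold patternCount
  refine (Set.ncard_le_ncard
    (t := {fun B : Finset (Fin k) => if B.card = r then some b else none}) ?_
    (Set.finite_singleton _)).trans (Set.ncard_singleton _).le
  rintro p ⟨φ, -, -, rfl⟩
  rfl

theorem inh_PB [Nonempty κ] {Bb : ℕ → ℕ} (hB : ∀ k, 1 ≤ Bb k) (r₀ : ℕ) :
    Inh (κ := κ) (PB Bb r₀) := by
  intro r N
  refine ⟨fun _ => Classical.arbitrary κ, fun k => (patternCount_const _ _ _ _).trans ?_⟩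
  have h1 : 1 ≤ k ^ ((r - r₀) * k) := by
    rcases Nat.eq_zero_or_pos k with rfl | hk
    · simp
    · exact Nat.one_le_pow _ _ hk
  exact Nat.mul_le_mul h1 (hB k)

theorem patternCount_nrm (t : ℕ) (κ₀ : κ) (c : Finset ℕ → κ) (N k : ℕ) :
    patternCount t (nrm t κ₀ c) N k = patternCount t c N k := by
  unfold patternCount patterns
  congr 2
  funext p
  apply propext
  apply exists_congr
  intro φ
  apply and_congr_right
  intro hφ
  have : pattern t (nrm t κ₀ c) φ = pattern t c φ := by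
    funext B
    unfold pattern nrm
    rw [card_image_of_injective _ hφ.injective]
    by_cases hB : B.card = t
    · rw [if_pos hB, if_pos hB, if_pos hB]
    · rw [if_neg hB, if_neg hB]
  rw [this]

theorem not_hom_nrm {t n m : ℕ} {κ₀ : κ} {c : Finset ℕ → κ}
    (hc : ∀ S ⊆ range m, S.card = n → ∀ b, ∃ A ⊆ S, A.card = t ∧ c A ≠ b) :
    ∀ S ⊆ range m, S.card = n → ∀ b, ∃ A ⊆ S, A.card = t ∧ nrm t κ₀ c A ≠ b := by
  intro S hS hSn b
  obtain ⟨A, hA, hAc, hAb⟩ := hc S hS hSn b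
  refine ⟨A, hA, hAc, ?_⟩
  unfold nrm
  rwa [if_pos hAc]

/-- One more vertex. -/
theorem step_arrow [Finite κ] {Bb : ℕ → ℕ} (hB : Monotone Bb) (hB0 : 1 ≤ Bb 0) {r₀ : ℕ}
    {κ₀ κ₁ : κ} (hκ : κ₀ ≠ κ₁) {s n m : ℕ} (hr₀ : r₀ ≤ s + 3) (hn : 1 ≤ n)
    (h : ¬ Arrow (κ := κ) (PB Bb r₀) (s + 3) n m) :
    ¬ Arrow (κ := κ) (PB Bb r₀) (s + 4) (2 * n + s + 2) (2 ^ m) := by
  unfold Arrow at h
  push Not at h
  obtain ⟨c, hcP, hc⟩ := h
  have hc' := not_hom_nrm (κ₀ := κ₀) hc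
  intro hA
  obtain ⟨S, hS, hSn, b, hb⟩ := hA (ofTup (s + 4) κ₀ (stepF ρD κ₀ κ₁ (lev (nrm (s + 3) κ₀ c)) s))
    (by
      intro k
      have h1 := step_closed hB hB0 (local_stepF κ₀ κ₁ c s) m hcP k
      rwa [show s + 3 - r₀ + 1 = s + 4 - r₀ by omega] at h1)
  obtain ⟨Λ, hΛn, hΛ, -, hΛb⟩ := step_main (n := n) isScale_ρD hκ hn (S := S) (b := b)
    (χ := lev (nrm (s + 3) κ₀ c)) (s := s) (by omega) (by
      intro x hx hxS
      have := hb _ (mem_of_tuple hxS) (card_tuple hx)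
      rwa [ofTup_image hx] at this)
  refine lev_contra hc' hΛn ?_ hΛb
  intro l hl
  obtain ⟨x, hx, y, hy, hxy, rfl⟩ := hΛ l hl
  exact ⟨del x y, del_lt hxy (mem_range.1 (hS hy)), rfl⟩

/-- Triples. -/
theorem pair_arrow [Finite κ] [Nonempty κ] {Bb : ℕ → ℕ} (hB : Monotone Bb) (hB0 : 1 ≤ Bb 0)
    {n m : ℕ} (hn : 1 ≤ n) (h : ¬ Arrow (κ := κ) (PB Bb 2) 2 n m) :
    ¬ Arrow (κ := Bool × κ) (PB Bb 2) 3 (n + 1) (2 ^ m) := by
  obtain ⟨κ₀⟩ := ‹Nonempty κ›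
  unfold Arrow at h
  push Not at h
  obtain ⟨c, hcP, hc⟩ := h
  have hc' := not_hom_nrm (κ₀ := κ₀) hc
  intro hA
  obtain ⟨S, hS, hSn, b, hb⟩ := hA (ofTup 3 (true, κ₀) (pairF ρD (lev (nrm 2 κ₀ c))))
    (by
      intro k
      have h1 := step_closed hB hB0 (local_pairF κ₀ (true, κ₀) c) m (e := 0) hcP k
      exact h1)
  obtain ⟨Λ, hΛn, hΛ, -, b', hΛb⟩ := pair_main (n := n) isScale_ρD hn (S := S) (b := b)
    (χ := lev (nrm 2 κ₀ c)) (by omega) (by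
      intro x hx hxS
      have := hb _ (mem_of_tuple hxS) (card_tuple hx)
      rwa [ofTup_image hx] at this)
  refine lev_contra hc' hΛn ?_ hΛb
  intro l hl
  obtain ⟨x, hx, y, hy, hxy, rfl⟩ := hΛ l hl
  exact ⟨del x y, del_lt hxy (mem_range.1 (hS hy)), rfl⟩

theorem lo_PB_step [Fintype κ] {Bb : ℕ → ℕ} (hB : Monotone Bb) (hB0 : 1 ≤ Bb 0) {r₀ : ℕ}
    {κ₀ κ₁ : κ} (hκ : κ₀ ≠ κ₁) {r t : ℕ} (hr : 3 ≤ r) (hr₀ : r₀ ≤ r) (ht : 1 ≤ t)
    (h : Lo 1 t (Ram (κ := κ) (PB Bb r₀) r)) :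
    Lo 1 (t + 1) (Ram (κ := κ) (PB Bb r₀) (r + 1)) := by
  have : Nonempty κ := ⟨κ₀⟩
  obtain ⟨s, rfl⟩ : ∃ s, r = s + 3 := ⟨r - 3, by omega⟩
  refine lo_step (a := 2) (b := s + 2) le_rfl ht (by norm_num)
    (fun n m hnm => Ram_mono (by omega) hnm) ?_ h
  intro n hn
  have h1 : n ≤ Ram (κ := κ) (PB Bb r₀) (s + 3) n :=
    le_Ram (by omega) (inh_PB (fun k => hB0.trans (hB (Nat.zero_le k))) r₀)
  have h2 := step_arrow hB hB0 hκ hr₀ hn
    (not_arrow_of_lt (show Ram (κ := κ) (PB Bb r₀) (s + 3) n - 1 <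
      Ram (κ := κ) (PB Bb r₀) (s + 3) n by omega))
  exact (lt_Ram (by omega) (hered_PB Bb r₀) h2).le

theorem lo_PB [Fintype κ] {Bb : ℕ → ℕ} (hB : Monotone Bb) (hB0 : 1 ≤ Bb 0) {r₀ : ℕ}
    {κ₀ κ₁ : κ} (hκ : κ₀ ≠ κ₁) (hr₀ : r₀ ≤ 3) {t : ℕ} (ht : 1 ≤ t)
    (h : Lo 1 t (Ram (κ := κ) (PB Bb r₀) 3)) {r : ℕ} (hr : 3 ≤ r) :
    Lo 1 (r - 3 + t) (Ram (κ := κ) (PB Bb r₀) r) := by
  induction r, hr using Nat.le_induction with
  | base => simpa using h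
  | succ r hr ih =>
    have h2 := lo_PB_step hB hB0 hκ hr (hr₀.trans hr) (by omega) ih
    rwa [show r - 3 + t + 1 = r + 1 - 3 + t by omega] at h2

theorem lo_pred {k : ℕ} (hk : 1 ≤ k) {f : ℕ → ℕ} (h : Lo 1 k f) :
    ∃ c : ℝ, 0 < c ∧ ∃ N : ℕ, ∀ n : ℕ, N ≤ n →
      1 ≤ f n ∧ Real.exp^[k] (c * (n : ℝ)) ≤ ((f n - 1 : ℕ) : ℝ) := by
  obtain ⟨c, hc, N, hN⟩ := h
  obtain ⟨M, hM⟩ := exists_nat_ge (2 / c)
  refine ⟨c / 2, by positivity, max N M, ?_⟩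
  intro n hn
  have h1 : 1 ≤ c / 2 * (n : ℝ) := by
    have h2 : (M : ℝ) ≤ n := by exact_mod_cast le_of_max_le_right hn
    have h3 := hM.trans h2
    rw [div_le_iff₀ hc] at h3
    linarith
  have h4 := E_pow hk (a := 2) (by norm_num) h1
  have h5 := E_ge_two hk h1
  have h6 := hN n (le_of_max_le_left hn)
  rw [show ((2 : ℕ) : ℝ) * (c / 2 * (n : ℝ)) = c * (n : ℝ) ^ 1 by push_cast; ring] at h4
  have h7 := h4.trans h6
  set E := Real.exp^[k] (c / 2 * (n : ℝ)) with hE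
  have h8 : E + 1 ≤ (f n : ℝ) := by nlinarith
  have h9 : 1 ≤ f n := by
    have : (1 : ℝ) ≤ (f n : ℝ) := by linarith
    exact_mod_cast this
  refine ⟨h9, ?_⟩
  rw [Nat.cast_sub h9]
  push_cast
  linarith

/-- There is a colouring with few patterns and no homogeneous set of size `n`. -/
def Wit (κ : Type) (Bb : ℕ → ℕ) (r₀ r n N : ℕ) : Prop :=
  ∃ c : Finset ℕ → κ, NoHom r c N n ∧
    ∀ k, patternCount r c N k ≤ k ^ ((r - r₀) * k) * Bb k

theorem wit_of {Bb : ℕ → ℕ} {r₀ r n N : ℕ} (h : ¬ Arrow (κ := κ) (PB Bb r₀) r n N) :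
    Wit κ Bb r₀ r n N := by
  unfold Arrow at h
  push Not at h
  obtain ⟨c, hcP, hc⟩ := h
  exact ⟨c, fun S hS hSn b => hc S hS hSn b, hcP⟩

theorem wit_grow [Fintype κ] {Bb : ℕ → ℕ} {r₀ r t : ℕ} (ht : 1 ≤ t)
    (h : Lo 1 t (Ram (κ := κ) (PB Bb r₀) r)) :
    ∃ c : ℝ, 0 < c ∧ ∃ n₀ : ℕ, ∀ n : ℕ, n₀ ≤ n →
      ∃ N : ℕ, Real.exp^[t] (c * (n : ℝ)) ≤ (N : ℝ) ∧ Wit κ Bb r₀ r n N := by
  obtain ⟨c, hc, n₀, hn₀⟩ := lo_pred ht h
  refine ⟨c, hc, n₀, fun n hn => ?_⟩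
  obtain ⟨h1, h2⟩ := hn₀ n hn
  exact ⟨_, h2, wit_of (not_arrow_of_lt (by omega))⟩

theorem mono_choose (r : ℕ) : Monotone fun k : ℕ => 2 ^ (k.choose r) := fun _ _ h =>
  Nat.pow_le_pow_right (by norm_num) (Nat.choose_le_choose _ h)

/-- **Two colours.** -/
theorem q1_iff {r : ℕ} (hr : 4 ≤ r) : Q1 ↔ ∃ c : ℝ, 0 < c ∧ ∃ n₀ : ℕ, ∀ n : ℕ, n₀ ≤ n →
    ∃ N : ℕ, Real.exp^[r - 1] (c * (n : ℝ)) ≤ (N : ℝ) ∧
      Wit Bool (fun k => 2 ^ (k.choose 3)) 3 r n N := by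
  constructor
  · intro h
    apply wit_grow (by omega)
    have h3 : Lo 1 2 (Ram (κ := Bool) (PB (fun k => 2 ^ (k.choose 3)) 3) 3) := by
      refine (Q1_iff_three.1 h).mono fun n => ?_
      apply Ram_le
      have h2 := Ram_spec (κ := Bool) (P := PB (fun k => 2 ^ (k.choose 3)) 3) (r := 3) (n := n)
        (by norm_num)
      intro c _
      apply h2
      intro k
      have := patternCount_le 3 c (Ram (κ := Bool) (PB (fun k => 2 ^ (k.choose 3)) 3) 3 n) k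
      rw [Fintype.card_bool] at this
      simpa using this
    have h4 := lo_PB (mono_choose 3) (by simp) (κ₀ := true) (κ₁ := false) (by decide) le_rfl
      (by norm_num) h3 (show 3 ≤ r by omega)
    rwa [show r - 3 + 2 = r - 1 by omega] at h4
  · rintro ⟨c, hc, n₀, hn₀⟩
    rw [Q1_iff_three]
    apply (all_iff (r := r) (by omega)).1
    refine ⟨c, hc, n₀, ?_⟩
    intro n hn
    obtain ⟨N, hN, col, hcol, -⟩ := hn₀ n hn
    rw [pow_one]
    refine hN.trans ?_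
    have h1 : N < Ram (κ := Bool) AllCol r n := by
      by_contra h
      push Not at h
      obtain ⟨S, hS, hSn, b, hb⟩ :=
        ((Ram_spec (P := AllCol) (r := r) (n := n) (by omega)).mono_N hered_all h) col trivial
      obtain ⟨A, hA, hAr, hAb⟩ := hcol S hS hSn b
      exact hAb (hb A hA hAr)
    exact_mod_cast h1.le

/-- **Four colours.** -/
theorem four {r : ℕ} (hr : 3 ≤ r) : ∃ c : ℝ, 0 < c ∧ ∃ n₀ : ℕ, ∀ n : ℕ, n₀ ≤ n →
    ∃ N : ℕ, Real.exp^[r - 1] (c * (n : ℝ)) ≤ (N : ℝ) ∧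
      Wit (Bool × Bool) (fun k => 2 ^ (k.choose 2)) 2 r n N := by
  apply wit_grow (by omega)
  have h3 : Lo 1 2 (Ram (κ := Bool × Bool) (PB (fun k => 2 ^ (k.choose 2)) 2) 3) := by
    refine lo_step (k := 1) (a := 1) (b := 1) le_rfl le_rfl le_rfl
      (fun n m hnm => Ram_mono (by omega) hnm) ?_ lo_two
    intro n hn
    have h2 : n ≤ Ram (κ := Bool) AllCol 2 n := le_Ram (by omega) inh_all
    rw [one_mul]
    refine (lt_Ram (by omega) (hered_PB _ _) (pair_arrow (κ := Bool) (mono_choose 2) (by simp) hn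
      ?_)).le
    intro hA
    refine not_arrow_of_lt (P := AllCol) (r := 2) (n := n)
      (show Ram (κ := Bool) AllCol 2 n - 1 < _ by omega) ?_
    intro c _
    apply hA
    intro k
    have := patternCount_le 2 c (Ram (κ := Bool) AllCol 2 n - 1) k
    rw [Fintype.card_bool] at this
    simpa using this
  have h4 := lo_PB (mono_choose 2) (by simp) (κ₀ := ((true, true) : Bool × Bool))
    (κ₁ := (false, false)) (by decide) (by norm_num) (by norm_num) h3 hr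
  rwa [show r - 3 + 2 = r - 1 by omega] at h4

theorem patternCount_comp {κ' : Type} [Finite κ] (f : κ → κ') (r : ℕ) (c : Finset ℕ → κ)
    (N k : ℕ) : patternCount r (fun A => f (c A)) N k ≤ patternCount r c N k := by
  unfold patternCount
  have h1 : patterns r (fun A => f (c A)) N k ⊆ (fun p B => (p B).map f) '' patterns r c N k := by
    rintro p ⟨φ, h1, h2, rfl⟩
    refine ⟨pattern r c φ, ⟨φ, h1, h2, rfl⟩, ?_⟩
    funext B
    unfold pattern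
    by_cases hB : B.card = r
    · simp [hB]
    · simp [hB]
  exact (Set.ncard_le_ncard h1 ((patterns_finite r c N k).image _)).trans
    (Set.ncard_image_le (patterns_finite r c N k))

/-- **Few patterns.** Towers of height `r - 2`. -/
theorem slow {r : ℕ} (hr : 3 ≤ r) : ∃ c : ℝ, 0 < c ∧ ∃ n₀ : ℕ, ∀ n : ℕ, n₀ ≤ n →
    ∃ N : ℕ, Real.exp^[r - 2] (c * (n : ℝ)) ≤ (N : ℝ) ∧ ∃ col : Finset ℕ → Bool,
      NoHom r col N n ∧ ∀ k, patternCount r col N k ≤ k ^ ((r - 2) * k) := by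
  have h3 : Lo 1 1 (Ram (κ := Bool × Unit) (PB (fun _ => 1) 2) 3) := by
    refine ⟨1 / 4, by norm_num, 4, ?_⟩
    intro n hn
    have h1 : ¬ Arrow (κ := Unit) (PB (fun _ => 1) 2) 2 (n - 1) (n - 2) := by
      intro hA
      obtain ⟨S, hS, hSn, -⟩ := hA (fun _ => ()) fun k => (patternCount_const _ _ _ _).trans
        (by simp)
      have h2 := card_le_card hS
      rw [card_range, hSn] at h2
      omega
    have h2 := lt_Ram (by omega) (hered_PB _ _)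
      (pair_arrow (Bb := fun _ => 1) monotone_const le_rfl (by omega) h1)
    rw [show n - 1 + 1 = n by omega] at h2
    rw [Function.iterate_one, pow_one]
    have h4 : Real.exp (1 / 4 * (n : ℝ)) ≤ (2 : ℝ) ^ (n - 2) := by
      apply two_pow_ge
      rw [Nat.cast_sub (by omega)]
      have : (4 : ℝ) ≤ n := by exact_mod_cast hn
      push_cast
      linarith
    exact h4.trans (by exact_mod_cast h2.le)
  have h4 := lo_PB (Bb := fun _ => 1) monotone_const le_rfl (κ₀ := ((true, ()) : Bool × Unit))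
    (κ₁ := (false, ())) (by decide) (by norm_num) le_rfl h3 hr
  rw [show r - 3 + 1 = r - 2 by omega] at h4
  obtain ⟨c, hc, n₀, hn₀⟩ := wit_grow (by omega) h4
  refine ⟨c, hc, n₀, fun n hn => ?_⟩
  obtain ⟨N, hN, col, hcol, hP⟩ := hn₀ n hn
  refine ⟨N, hN, fun A => (col A).1, ?_, ?_⟩
  · intro S hS hSn b
    obtain ⟨A, hA, hAr, hAb⟩ := hcol S hS hSn (b, ())
    refine ⟨A, hA, hAr, fun h => hAb ?_⟩
    exact Prod.ext h rfl
  · intro k
    refine (patternCount_comp Prod.fst r col N k).trans ?_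
    simpa using hP k

end Pool.Agent.T3h47.PC
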