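import Pool.Agent.T3h47.PC.Cog
import Pool.Agent.Y424.LK.QMain

/-!
# Small VC-dimension: homogeneous sets

Clusters dominate large sets, and only the clusters are small.
-/

set_option autoImplicit false

namespace Pool.Agent.T3h47.PC

open Finset Pool.Agent.Y424.LK
open Pool.Agent.TH458.VC (VCle diffOn)

variable {κ : Type} [DecidableEq κ]

/-- Complete tree-like colourings. -/
inductive CogS (g : ℕ → ℕ → κ) : Finset ℕ → Prop
  | empty : CogS g ∅
  | leaf (x : ℕ) : CogS g {x}
  | node (a : κ) {Y Z : Finset ℕ} (hY : CogS g Y) (hZ : CogS g Z)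
      (h : ∀ y ∈ Y, ∀ z ∈ Z, z ≠ y ∧ g y z = a) : CogS g (Y ∪ Z)

/-- Homogeneous sets of tree-like colourings. -/
theorem CogS.hom [Fintype κ] {g : ℕ → ℕ → κ} (hg : ∀ x y, g x y = g y x) {Y : Finset ℕ}
    (h : CogS g Y) : ∃ f : κ → ℕ, Y.card ≤ ∏ a, f a ∧
      ∀ a, ∃ S ⊆ Y, S.card = f a ∧ ∀ x ∈ S, ∀ y ∈ S, x ≠ y → g x y = a := by
  induction h with
  | empty =>
    refine ⟨fun _ => 0, by simp, fun a => ⟨∅, Subset.rfl, rfl, ?_⟩⟩
    intro y hy
    exact absurd hy (notMem_empty y)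
  | leaf x =>
    refine ⟨fun _ => 1, by simp, fun a => ⟨{x}, Subset.rfl, by simp, ?_⟩⟩
    intro y hy z hz hyz
    rw [mem_singleton] at hy hz
    exact absurd (hy.trans hz.symm) hyz
  | @node a Y Z hY hZ h ih1 ih2 =>
    obtain ⟨f, hf, hfS⟩ := ih1
    obtain ⟨f', hf', hfS'⟩ := ih2
    refine ⟨fun b => if b = a then f b + f' b else max (f b) (f' b), ?_, ?_⟩
    · rw [← mul_prod_erase univ _ (mem_univ a), if_pos rfl, add_mul]
      have h1 : ∏ b ∈ univ.erase a, f b ≤
          ∏ b ∈ univ.erase a, (if b = a then f b + f' b else max (f b) (f' b)) := by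
        apply prod_le_prod' fun b hb => ?_
        rw [if_neg (mem_erase.1 hb).1]
        exact le_max_left _ _
      have h2 : ∏ b ∈ univ.erase a, f' b ≤
          ∏ b ∈ univ.erase a, (if b = a then f b + f' b else max (f b) (f' b)) := by
        apply prod_le_prod' fun b hb => ?_
        rw [if_neg (mem_erase.1 hb).1]
        exact le_max_right _ _
      rw [← mul_prod_erase univ _ (mem_univ a)] at hf hf'
      exact (card_union_le _ _).trans (Nat.add_le_add (hf.trans (Nat.mul_le_mul_left _ h1))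
        (hf'.trans (Nat.mul_le_mul_left _ h2)))
    · intro b
      by_cases hb : b = a
      · subst hb
        obtain ⟨S, hS, hSc, hSb⟩ := hfS b
        obtain ⟨S', hS', hSc', hSb'⟩ := hfS' b
        refine ⟨S ∪ S', union_subset_union hS hS', ?_, ?_⟩
        · simp only [if_pos]
          rw [card_union_of_disjoint, hSc, hSc']
          rw [disjoint_left]
          intro y hy hy'
          exact (h y (hS hy) y (hS' hy')).1 rfl
        · intro x hx y hy hxy
          rcases mem_union.1 hx with hx | hx <;> rcases mem_union.1 hy with hy | hy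
          · exact hSb x hx y hy hxy
          · exact (h x (hS hx) y (hS' hy)).2
          · rw [hg]
            exact (h y (hS hy) x (hS' hx)).2
          · exact hSb' x hx y hy hxy
      · simp only [if_neg hb]
        rcases le_total (f b) (f' b) with hle | hle
        · obtain ⟨S', hS', hSc', hSb'⟩ := hfS' b
          exact ⟨S', hS'.trans subset_union_right, by rw [hSc', max_eq_right hle], hSb'⟩
        · obtain ⟨S, hS, hSc, hSb⟩ := hfS b
          exact ⟨S, hS.trans subset_union_left, by rw [hSc, max_eq_left hle], hSb⟩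

section rec

variable [Fintype κ] {g : ℕ → ℕ → κ} {θ MA MB H : ℕ} {U : Finset ℕ}

/-- One chain of clusters. -/
theorem chain (hθ : 2 * H * Fintype.card κ ≤ θ) (hθ1 : 1 ≤ θ)
    (hMA : 1 ≤ MA) (hMB : 1 ≤ MB)
    (hdom : ∀ W ⊆ U, 4 * θ ≤ W.card → ∃ A ⊆ W, ∃ B ⊆ W, W.card ≤ MA * A.card ∧
      W.card ≤ MB * B.card ∧ ∃ a : κ, ∀ x ∈ A,
        θ * (B \ nb g a x B).card ≤ Fintype.card κ * B.card)
    {m T : ℕ} (hmH : m ≤ H) (hT1 : 1 ≤ T)
    (hT : ∀ V ⊆ U, T ≤ V.card → ∃ Y ⊆ V, CogS g Y ∧ Y.card = m) (i : ℕ) :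
    ∀ W ⊆ U, MA * (2 * MB) ^ i * (4 * θ) * T ≤ W.card → ∃ Y ⊆ W, CogS g Y ∧ Y.card = i * m := by
  induction i with
  | zero =>
    intro W _ _
    exact ⟨∅, empty_subset _, CogS.empty, by simp⟩
  | succ i ih =>
    intro W hWU hW
    have hpow : 1 ≤ (2 * MB) ^ i := Nat.one_le_pow _ _ (by omega)
    have h4 : 4 * θ ≤ W.card := by
      refine le_trans ?_ hW
      calc 4 * θ = 1 * 1 * (4 * θ) * 1 := by ring
        _ ≤ MA * (2 * MB) ^ (i + 1) * (4 * θ) * T := by
          gcongr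
          exact Nat.one_le_pow _ _ (by omega)
    obtain ⟨A, hA, B, hB, hAc, hBc, a, hab⟩ := hdom W hWU h4
    have hTA : T ≤ A.card := by
      have h1 : MA * T ≤ MA * A.card := by
        refine le_trans ?_ (hW.trans hAc)
        calc MA * T = MA * 1 * 1 * T := by ring
          _ ≤ MA * (2 * MB) ^ (i + 1) * (4 * θ) * T := by
            gcongr
            · exact Nat.one_le_pow _ _ (by omega)
            · omega
      exact Nat.le_of_mul_le_mul_left h1 (by omega)
    obtain ⟨Y, hY, hYc, hYm⟩ := hT A (hA.trans hWU) hTA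
    set B' := B \ Y.biUnion fun y => B \ nb g a y B with hB'
    have h1 : θ * (Y.biUnion fun y => B \ nb g a y B).card ≤ H * (Fintype.card κ * B.card) := by
      calc θ * (Y.biUnion fun y => B \ nb g a y B).card
          ≤ θ * ∑ y ∈ Y, (B \ nb g a y B).card := Nat.mul_le_mul_left _ card_biUnion_le
        _ = ∑ y ∈ Y, θ * (B \ nb g a y B).card := by rw [mul_sum]
        _ ≤ ∑ _y ∈ Y, Fintype.card κ * B.card := sum_le_sum fun y hy => hab y (hY hy)
        _ = Y.card * (Fintype.card κ * B.card) := by rw [sum_const, smul_eq_mul]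
        _ ≤ H * (Fintype.card κ * B.card) := Nat.mul_le_mul_right _ (hYm.le.trans hmH)
    have h2 : 2 * (Y.biUnion fun y => B \ nb g a y B).card ≤ B.card := by
      have h4 : θ * (2 * (Y.biUnion fun y => B \ nb g a y B).card) ≤ θ * B.card := by
        calc θ * (2 * (Y.biUnion fun y => B \ nb g a y B).card)
            = 2 * (θ * (Y.biUnion fun y => B \ nb g a y B).card) := by ring
          _ ≤ 2 * (H * (Fintype.card κ * B.card)) := Nat.mul_le_mul_left _ h1
          _ = 2 * H * Fintype.card κ * B.card := by ring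
          _ ≤ θ * B.card := Nat.mul_le_mul_right _ hθ
      exact Nat.le_of_mul_le_mul_left h4 (by omega)
    have h5 : B.card ≤ 2 * B'.card := by
      have := le_card_sdiff (Y.biUnion fun y => B \ nb g a y B) B
      rw [hB']
      omega
    have h6 : MA * (2 * MB) ^ i * (4 * θ) * T ≤ B'.card := by
      have h7 : (2 * MB) * (MA * (2 * MB) ^ i * (4 * θ) * T) ≤ (2 * MB) * B'.card := by
        calc (2 * MB) * (MA * (2 * MB) ^ i * (4 * θ) * T)
            = MA * (2 * MB) ^ (i + 1) * (4 * θ) * T := by rw [pow_succ]; ring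
          _ ≤ MB * B.card := hW.trans hBc
          _ ≤ MB * (2 * B'.card) := Nat.mul_le_mul_left _ h5
          _ = (2 * MB) * B'.card := by ring
      exact Nat.le_of_mul_le_mul_left h7 (by omega)
    obtain ⟨Z, hZ, hZc, hZm⟩ := ih B' (sdiff_subset.trans (hB.trans hWU)) h6
    have hnode : ∀ y ∈ Y, ∀ z ∈ Z, z ≠ y ∧ g y z = a := by
      intro y hy z hz
      have h8 := hZ hz
      rw [hB', mem_sdiff, mem_biUnion] at h8
      push Not at h8
      have h9 : z ∈ nb g a y B := by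
        by_contra h10
        exact h8.2 y hy (mem_sdiff.2 ⟨h8.1, h10⟩)
      rw [mem_nb] at h9
      exact h9.2
    refine ⟨Y ∪ Z, union_subset (hY.trans hA) (hZ.trans (sdiff_subset.trans hB)),
      CogS.node a hYc hZc hnode, ?_⟩
    rw [card_union_of_disjoint, hYm, hZm]
    · ring
    · rw [disjoint_left]
      intro y hy hz
      exact (hnode y hy y hz).1 rfl

/-- The levels. -/
theorem levels (hθ : 2 * H * Fintype.card κ ≤ θ) (hθ1 : 1 ≤ θ)
    (hMA : 1 ≤ MA) (hMB : 1 ≤ MB)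
    (hdom : ∀ W ⊆ U, 4 * θ ≤ W.card → ∃ A ⊆ W, ∃ B ⊆ W, W.card ≤ MA * A.card ∧
      W.card ≤ MB * B.card ∧ ∃ a : κ, ∀ x ∈ A,
        θ * (B \ nb g a x B).card ≤ Fintype.card κ * B.card)
    {t : ℕ} (ht : 1 ≤ t) : ∀ j, t ^ (j - 1) ≤ H →
      ∀ W ⊆ U, (MA * (2 * MB) ^ t * (4 * θ)) ^ j ≤ W.card → ∃ Y ⊆ W, CogS g Y ∧ Y.card = t ^ j := by
  intro j
  induction j with
  | zero =>
    intro _ W _ hW
    obtain ⟨x, hx⟩ : W.Nonempty := card_pos.1 (by simpa using hW)
    exact ⟨{x}, singleton_subset_iff.2 hx, CogS.leaf x, by simp⟩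
  | succ j ih =>
    intro hH W hWU hW
    rw [Nat.add_sub_cancel] at hH
    have hih := ih (le_trans (Nat.pow_le_pow_right ht (by omega)) hH)
    have hT1 : 1 ≤ (MA * (2 * MB) ^ t * (4 * θ)) ^ j := by
      apply Nat.one_le_pow
      have : 0 < (2 * MB) ^ t := by positivity
      positivity
    obtain ⟨Y, hY, hYc, hYm⟩ := chain hθ hθ1 hMA hMB hdom hH hT1 hih t W hWU (by
      refine le_trans (le_of_eq ?_) hW
      rw [pow_succ]
      ring)
    exact ⟨Y, hY, hYc, by rw [hYm, pow_succ]; ring⟩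

/-- Homogeneous sets from clusters. -/
theorem hom_of_levels (hg : ∀ x y, g x y = g y x) (hθ : 2 * H * Fintype.card κ ≤ θ)
    (hθ1 : 1 ≤ θ) (hMA : 1 ≤ MA) (hMB : 1 ≤ MB)
    (hdom : ∀ W ⊆ U, 4 * θ ≤ W.card → ∃ A ⊆ W, ∃ B ⊆ W, W.card ≤ MA * A.card ∧
      W.card ≤ MB * B.card ∧ ∃ a : κ, ∀ x ∈ A,
        θ * (B \ nb g a x B).card ≤ Fintype.card κ * B.card)
    {t j n : ℕ} (ht : 1 ≤ t) (hH : t ^ (j - 1) ≤ H) (hn : n ^ Fintype.card κ ≤ t ^ j)
    (hU : (MA * (2 * MB) ^ t * (4 * θ)) ^ j ≤ U.card) :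
    ∃ (a : κ) (S : Finset ℕ), S ⊆ U ∧ S.card = n ∧ ∀ x ∈ S, ∀ y ∈ S, x ≠ y → g x y = a := by
  obtain ⟨Y, hY, hYc, hYm⟩ := levels hθ hθ1 hMA hMB hdom ht j hH U Subset.rfl hU
  obtain ⟨f, hf, hfS⟩ := hYc.hom hg
  rw [hYm] at hf
  have h1 : ∃ a, n ≤ f a := by
    by_contra hcon
    push Not at hcon
    have hq : 1 ≤ Fintype.card κ := Fintype.card_pos_iff.2 ⟨g 0 0⟩
    have h2 : ∏ a, f a < n ^ Fintype.card κ := by
      have h3 : ∏ a, f a ≤ ∏ _a : κ, (n - 1) := prod_le_prod' fun a _ => by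
        have := hcon a
        omega
      rw [prod_const, card_univ] at h3
      have hn0 : 0 < n := by
        have := hcon (g 0 0)
        omega
      exact h3.trans_lt (Nat.pow_lt_pow_left (by omega) (by omega))
    omega
  obtain ⟨a, ha⟩ := h1
  obtain ⟨S, hS, hSc, hSa⟩ := hfS a
  obtain ⟨T, hTS, hTc⟩ := exists_subset_card_eq (ha.trans hSc.ge)
  exact ⟨a, T, hTS.trans (hS.trans hY), hTc, fun x hx y hy hxy =>
    hSa x (hTS hx) y (hTS hy) hxy⟩

end rec

open scoped Classical in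
/-- Clusters dominate. -/
theorem dom_cluster [Fintype κ] {c : Finset ℕ → κ} {U S : Finset ℕ} {d θ : ℕ}
    (hd : ∀ a, VCle (colourLink c a U S) d) (hθ : 1 ≤ θ) : ∀ W ⊆ U, 4 * θ ≤ W.card →
      ∃ A ⊆ W, ∃ B ⊆ W, W.card ≤ (176 * θ) ^ (d * Fintype.card κ) * A.card ∧
        W.card ≤ 2 * Fintype.card κ * B.card ∧ ∃ a : κ, ∀ x ∈ A,
          θ * (B \ nb (fun x y => c (insert x (insert y S))) a x B).card ≤
            Fintype.card κ * B.card := by
  intro W hWU hW
  set g : ℕ → ℕ → κ := fun x y => c (insert x (insert y S)) with hg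
  set W' : Finset {x // x ∈ U} := W.subtype (· ∈ U) with hW'
  have hWc : W'.card = W.card := by
    rw [hW', card_subtype, filter_true_of_mem fun x hx => hWU hx]
  set r := W.card / (4 * θ) with hr
  have hr1 : 1 ≤ r := (Nat.one_le_div_iff (by omega)).2 hW
  have hr2 : 4 * θ * r ≤ W.card := Nat.mul_div_le _ _
  have hr3 : W.card ≤ 8 * θ * r := by
    have h1 : W.card < 4 * θ * (r + 1) := Nat.lt_mul_div_succ _ (by omega)
    nlinarith
  obtain ⟨V1, hV1, hV1c, hV1d⟩ := cluster_many (fun a => colourLink c a U S) hd W' r hr1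
    (by rw [hWc]; nlinarith) univ W'
  rw [hWc, card_univ, ← pow_mul] at hV1c
  have hr0 : (0 : ℝ) < r := by exact_mod_cast hr1
  have hA : W.card ≤ (176 * θ) ^ (d * Fintype.card κ) * V1.card := by
    have h1 : (22 * (W.card : ℝ) / r) ≤ 176 * θ := by
      rw [div_le_iff₀ hr0]
      have : (W.card : ℝ) ≤ 8 * θ * r := by exact_mod_cast hr3
      linarith
    have h2 : (22 * (W.card : ℝ) / r) ^ (d * Fintype.card κ) ≤
        (176 * θ) ^ (d * Fintype.card κ) := pow_le_pow_left₀ (by positivity) h1 _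
    have h3 : (W.card : ℝ) ≤ (176 * θ) ^ (d * Fintype.card κ) * V1.card :=
      hV1c.trans (mul_le_mul_of_nonneg_right h2 (Nat.cast_nonneg _))
    exact_mod_cast h3
  have hV1ne : V1.Nonempty := by
    rw [← card_pos]
    by_contra h0
    have h1 : V1.card = 0 := by omega
    rw [h1, mul_zero] at hA
    omega
  obtain ⟨v, hv⟩ := hV1ne
  have hvW : v.1 ∈ W := by
    have := hV1 hv
    rw [hW', mem_subtype] at this
    exact this
  have hq : 1 ≤ Fintype.card κ := Fintype.card_pos_iff.2 ⟨c ∅⟩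
  -- the most popular colour
  obtain ⟨a, ha⟩ : ∃ a, W.card - 1 ≤ Fintype.card κ * (nb g a v.1 W).card := by
    by_contra hcon
    push Not at hcon
    have h1 : W.erase v.1 ⊆ univ.biUnion fun a => nb g a v.1 W := by
      intro y hy
      rw [mem_erase] at hy
      rw [mem_biUnion]
      exact ⟨g v.1 y, mem_univ _, mem_nb.2 ⟨hy.2, hy.1, rfl⟩⟩
    have h2 := (card_le_card h1).trans card_biUnion_le
    rw [card_erase_of_mem hvW] at h2
    have h3 : ∑ a, Fintype.card κ * (nb g a v.1 W).card < ∑ _a : κ, (W.card - 1) :=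
      sum_lt_sum_of_nonempty ⟨c ∅, mem_univ _⟩ fun a _ => hcon a
    rw [← mul_sum, sum_const, card_univ, smul_eq_mul] at h3
    have h4 := lt_of_mul_lt_mul_left h3 (Nat.zero_le _)
    omega
  set B := nb g a v.1 W with hB
  have hBW : W.card ≤ 2 * Fintype.card κ * B.card := by
    have : W.card ≤ 2 * (W.card - 1) := by omega
    calc W.card ≤ 2 * (W.card - 1) := this
      _ ≤ 2 * (Fintype.card κ * B.card) := Nat.mul_le_mul_left _ ha
      _ = 2 * Fintype.card κ * B.card := by ring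
  refine ⟨V1.image Subtype.val, ?_, B, nb_subset, ?_, hBW, a, ?_⟩
  · intro x hx
    obtain ⟨w, hw, rfl⟩ := mem_image.1 hx
    have := hV1 hw
    rw [hW', mem_subtype] at this
    exact this
  · rw [card_image_of_injective _ Subtype.val_injective]
    exact hA
  · intro x hx
    obtain ⟨w, hw, rfl⟩ := mem_image.1 hx
    have h1 : B \ nb g a w.1 B ⊆ (diffOn (colourLink c a U S) W' v w).image Subtype.val := by
      intro y hy
      rw [mem_sdiff, mem_nb, hB, mem_nb] at hy
      obtain ⟨⟨hyW, hyv, hya⟩, hy2⟩ := hy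
      rw [mem_image]
      refine ⟨⟨y, hWU hyW⟩, ?_, rfl⟩
      unfold diffOn
      rw [mem_filter]
      refine ⟨by rw [hW', mem_subtype]; exact hyW, ?_⟩
      intro hiff
      have h2 : (colourLink c a U S).Adj v ⟨y, hWU hyW⟩ :=
        ⟨fun e => hyv (by rw [e]), hya⟩
      obtain ⟨h3, h4⟩ := hiff.1 h2
      exact hy2 ⟨mem_nb.2 ⟨hyW, hyv, hya⟩, fun e => h3 (Subtype.ext e.symm), h4⟩
    have h2 := (card_le_card h1).trans card_image_le
    have h3 := hV1d a (mem_univ a) v hv w hw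
    have h4 : 2 * (θ * (B \ nb g a w.1 B).card) ≤ 2 * (Fintype.card κ * B.card) := by
      calc 2 * (θ * (B \ nb g a w.1 B).card) ≤ 2 * (θ * (2 * r)) := by
            apply Nat.mul_le_mul_left
            apply Nat.mul_le_mul_left
            omega
        _ = 4 * θ * r := by ring
        _ ≤ W.card := hr2
        _ ≤ 2 * Fintype.card κ * B.card := hBW
        _ = 2 * (Fintype.card κ * B.card) := by ring
    omega

end Pool.Agent.T3h47.PC
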