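import Pool.Agent.T3h47.PC.Low
import Pool.Agent.T3h47.PC.Clu

/-!
# Many patterns: asymptotics
-/

set_option autoImplicit false

namespace Pool.Agent.T3h47.PC

open Finset Pool.Agent.Y424.LK Pool.Agent.TH138.NF

theorem sq_le_two_pow {m : ℕ} (hm : 4 ≤ m) : m ^ 2 ≤ 2 ^ m := by
  induction m, hm using Nat.le_induction with
  | base => norm_num
  | succ m hm ih =>
    rw [pow_succ 2 m]
    nlinarith

theorem size_bound {q n k D m : ℕ} (hq : 1 ≤ q) (hn : 2 ≤ n) (hk : 1 ≤ k)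
    (hD : n ^ q ≤ 2 ^ D) (hm : 10 * k * D ^ 2 ≤ m) :
    (2 * (2 ^ k * q * (2 ^ (D + 1) * q) ^ k) * (2 ^ (D + 1) * q)) ^ D ≤ 2 ^ m := by
  have h1 : n ≤ 2 ^ D := (le_self_pow₀ (by omega) (by omega)).trans hD
  have h2 : q ≤ 2 ^ D := by
    have h3 : q < 2 ^ q := Nat.lt_two_pow_self
    have h4 : 2 ^ q ≤ n ^ q := Nat.pow_le_pow_left hn _
    omega
  have hD1 : 1 ≤ D := by
    by_contra h0
    have : D = 0 := by omega
    rw [this] at h1
    omega
  have h5 : 2 * (2 ^ k * q * (2 ^ (D + 1) * q) ^ k) * (2 ^ (D + 1) * q) ≤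
      2 ^ (1 + k + D + (2 * D + 1) * (k + 1)) := by
    calc 2 * (2 ^ k * q * (2 ^ (D + 1) * q) ^ k) * (2 ^ (D + 1) * q)
        ≤ 2 * (2 ^ k * 2 ^ D * (2 ^ (D + 1) * 2 ^ D) ^ k) * (2 ^ (D + 1) * 2 ^ D) := by gcongr
      _ = 2 ^ (1 + k + D + (2 * D + 1) * (k + 1)) := by
          rw [← pow_add, ← pow_add, ← pow_mul, ← pow_add, show 2 * 2 ^ (k + D + (D + 1 + D) * k) =
            2 ^ (1 + (k + D + (D + 1 + D) * k)) by rw [pow_add 2 1, pow_one], ← pow_add]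
          congr 1
          ring
  have h6 : 1 + k + D + (2 * D + 1) * (k + 1) ≤ 10 * k * D := by
    obtain ⟨D', rfl⟩ : ∃ D', D = D' + 1 := ⟨D - 1, by omega⟩
    obtain ⟨k', rfl⟩ : ∃ k', k = k' + 1 := ⟨k - 1, by omega⟩
    nlinarith [Nat.zero_le (D' * k')]
  calc (2 * (2 ^ k * q * (2 ^ (D + 1) * q) ^ k) * (2 ^ (D + 1) * q)) ^ D
      ≤ (2 ^ (1 + k + D + (2 * D + 1) * (k + 1))) ^ D := Nat.pow_le_pow_left h5 _
    _ = 2 ^ ((1 + k + D + (2 * D + 1) * (k + 1)) * D) := by rw [← pow_mul]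
    _ ≤ 2 ^ m := by
        apply Nat.pow_le_pow_right (by norm_num)
        refine le_trans ?_ hm
        calc (1 + k + D + (2 * D + 1) * (k + 1)) * D ≤ 10 * k * D * D :=
              Nat.mul_le_mul_right _ h6
          _ = 10 * k * D ^ 2 := by ring

/-- homogeneous sets of the link -/
theorem no_hom_link {κ : Type} {c : Finset ℕ → κ} {n : ℕ}
    {U S : Finset ℕ} (hcl : ∀ a : κ, (colourLink c a U S).CliqueFree n) (a : κ) (Q : Finset ℕ)
    (hQ : Q ⊆ U) (hQn : Q.card = n) :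
    ¬ ∀ x ∈ Q, ∀ y ∈ Q, x ≠ y → c (insert x (insert y S)) = a := by
  classical
  intro hQa
  apply hcl a (Q.subtype (· ∈ U))
  constructor
  · intro x hx y hy hxy
    have hx' : x.1 ∈ Q := by simpa using hx
    have hy' : y.1 ∈ Q := by simpa using hy
    exact ⟨hxy, hQa _ hx' _ hy' fun e => hxy (Subtype.ext e)⟩
  · rw [card_subtype, filter_true_of_mem (fun x hx => hQ hx), hQn]

theorem log_bound (n q : ℕ) : n ^ q ≤ 2 ^ (q * (Nat.log 2 n + 1)) := by
  rw [mul_comm, pow_mul]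
  exact Nat.pow_le_pow_left (Nat.lt_pow_succ_log_self (by norm_num) n).le _

theorem NoHom.homogeneous {κ : Type} {r N n : ℕ} {c : Finset ℕ → κ} (h : NoHom r c N n) :
    ∀ H ⊆ range N, H.card = n → ¬ Homogeneous r c H := by
  intro H hH hHn hhom
  obtain ⟨A₀, hA₀, hA₀c, -⟩ := h H hH hHn (c ∅)
  obtain ⟨A, hA, hAc, hAb⟩ := h H hH hHn (c A₀)
  exact hAb (hhom A hA A₀ hA₀ hAc hA₀c)

/-- **Few patterns.** -/
theorem few {κ : Type} [Fintype κ] {s k n N : ℕ} (hk : 1 ≤ k) (hn : 2 ≤ n)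
    (hN : Pool.Agent.Y424.LK.twr (s + 1)
      (20 * k * (Fintype.card κ * (Nat.log 2 n + 1)) ^ 2 + Fintype.card κ * (s + 2) ^ 2) ≤ N)
    {c : Finset ℕ → κ} (hc : NoHom (s + 2) c N n) :
    2 ^ (k.choose 2) ≤ (k + s) ^ (k + s) * patternCount (s + 2) c N (k + s) := by
  classical
  have hq : 1 ≤ Fintype.card κ := Fintype.card_pos_iff.2 ⟨c ∅⟩
  set D := Fintype.card κ * (Nat.log 2 n + 1) with hD
  obtain ⟨U, S, hU, hS, hUc, hSc, hlt, -, hcl⟩ := exists_linkQ κ (Fintype.card κ) hq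
    Nat.lt_two_pow_self.le s (10 * k * D ^ 2) n N (by
      rw [show 2 * (10 * k * D ^ 2) = 20 * k * D ^ 2 by ring]
      exact hN) c hc.homogeneous
  have hnD : n ^ Fintype.card κ ≤ 2 ^ D := log_bound _ _
  have hW : (2 * (k * Fintype.card κ * (2 ^ (D + 1) * Fintype.card κ) ^ k) *
      (2 ^ (D + 1) * Fintype.card κ)) ^ D ≤ U.card := by
    rw [hUc]
    refine le_trans ?_ (size_bound hq hn hk hnD le_rfl)
    gcongr
    exact Nat.lt_two_pow_self.le
  have hdisj : Disjoint U S := by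
    rw [disjoint_left]
    intro x hx hxS
    exact lt_irrefl _ (hlt x hx x hxS)
  have hNU : 2 ^ (10 * k * D ^ 2) + s ≤ N := by
    have h1 := card_le_card (union_subset hU hS)
    rw [card_union_of_disjoint hdisj, hUc, hSc, card_range] at h1
    exact h1
  have hkU : k ≤ 2 ^ (10 * k * D ^ 2) := by
    have h1 : k < 2 ^ k := Nat.lt_two_pow_self
    have h2 : 2 ^ k ≤ 2 ^ (10 * k * D ^ 2) := by
      apply Nat.pow_le_pow_right (by norm_num)
      have hD1 : 1 ≤ D ^ 2 := Nat.one_le_pow _ _ (by rw [hD]; positivity)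
      nlinarith
    omega
  have hmp := many_pat (fun x y => c (insert x (insert y S))) (fun x y => by rw [insert_comm])
    hnD U hW (no_hom_link hcl)
  exact pat_of_many hU hS hSc hlt hmp (by omega)

theorem clu_size {q d L l J : ℕ} (hq : 1 ≤ q) (hd : 1 ≤ d) (hL : 2 ≤ L)
    (hl : 2 ^ l ≤ d * L) :
    ((176 * (2 * 2 ^ (q * L) * q)) ^ (d * q) * (2 * (2 * q)) ^ (2 ^ l) *
      (4 * (2 * 2 ^ (q * L) * q))) ^ J ≤ 2 ^ (13 * d * q ^ 2 * L * J) := by
  have h1 : q ≤ 2 ^ q := Nat.lt_two_pow_self.le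
  have h2 : q ≤ 2 ^ (q * L) := h1.trans (Nat.pow_le_pow_right (by norm_num)
    (Nat.le_mul_of_pos_right _ (by omega)))
  have h3 : 2 * 2 ^ (q * L) * q ≤ 2 ^ (2 * (q * L) + 1) := by
    calc 2 * 2 ^ (q * L) * q ≤ 2 * 2 ^ (q * L) * 2 ^ (q * L) := Nat.mul_le_mul_left _ h2
      _ = 2 ^ (2 * (q * L) + 1) := by rw [pow_succ, two_mul (q * L), pow_add]; ring
  have h4 : 176 * (2 * 2 ^ (q * L) * q) ≤ 2 ^ (2 * (q * L) + 9) := by
    calc 176 * (2 * 2 ^ (q * L) * q) ≤ 2 ^ 8 * 2 ^ (2 * (q * L) + 1) :=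
          Nat.mul_le_mul (by norm_num) h3
      _ = 2 ^ (2 * (q * L) + 9) := by rw [← pow_add]; congr 1; ring
  have h5 : 4 * (2 * 2 ^ (q * L) * q) ≤ 2 ^ (2 * (q * L) + 3) := by
    calc 4 * (2 * 2 ^ (q * L) * q) ≤ 2 ^ 2 * 2 ^ (2 * (q * L) + 1) :=
          Nat.mul_le_mul (by norm_num) h3
      _ = 2 ^ (2 * (q * L) + 3) := by rw [← pow_add]; congr 1; ring
  have h6 : 2 * (2 * q) ≤ 2 ^ (2 + q) := by
    calc 2 * (2 * q) = 2 ^ 2 * q := by ring
      _ ≤ 2 ^ 2 * 2 ^ q := Nat.mul_le_mul_left _ h1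
      _ = 2 ^ (2 + q) := by rw [pow_add]
  have h7 : (176 * (2 * 2 ^ (q * L) * q)) ^ (d * q) * (2 * (2 * q)) ^ (2 ^ l) *
      (4 * (2 * 2 ^ (q * L) * q)) ≤ 2 ^ (13 * d * q ^ 2 * L) := by
    calc (176 * (2 * 2 ^ (q * L) * q)) ^ (d * q) * (2 * (2 * q)) ^ (2 ^ l) *
          (4 * (2 * 2 ^ (q * L) * q))
        ≤ (2 ^ (2 * (q * L) + 9)) ^ (d * q) * (2 ^ (2 + q)) ^ (d * L) *
          2 ^ (2 * (q * L) + 3) := by
          apply Nat.mul_le_mul _ h5
          apply Nat.mul_le_mul (Nat.pow_le_pow_left h4 _)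
          exact (Nat.pow_le_pow_left h6 _).trans (Nat.pow_le_pow_right (by positivity) hl)
      _ = 2 ^ ((2 * (q * L) + 9) * (d * q) + (2 + q) * (d * L) + (2 * (q * L) + 3)) := by
          rw [← pow_mul, ← pow_mul, ← pow_add, ← pow_add]
      _ ≤ 2 ^ (13 * d * q ^ 2 * L) := by
          apply Nat.pow_le_pow_right (by norm_num)
          obtain ⟨q, rfl⟩ : ∃ q', q = q' + 1 := ⟨q - 1, by omega⟩
          obtain ⟨d, rfl⟩ : ∃ d', d = d' + 1 := ⟨d - 1, by omega⟩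
          obtain ⟨L, rfl⟩ : ∃ L', L = L' + 2 := ⟨L - 2, by omega⟩
          ring_nf
          nlinarith [Nat.zero_le (d * q), Nat.zero_le (d * L), Nat.zero_le (q * L),
            Nat.zero_le (d * q * L), Nat.zero_le (q ^ 2 * L), Nat.zero_le (d * q ^ 2 * L),
            Nat.zero_le (q ^ 2), Nat.zero_le (d * q ^ 2)]
  calc _ ≤ (2 ^ (13 * d * q ^ 2 * L)) ^ J := Nat.pow_le_pow_left h7 _
    _ = 2 ^ (13 * d * q ^ 2 * L * J) := by rw [← pow_mul]

open Pool.Agent.TH458.VC (VCle Shat) in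
/-- **Small VC-dimension.** -/
theorem few_vc {κ : Type} [Fintype κ] {s d n N : ℕ} (hd : 1 ≤ d) (hn : 2 ≤ n)
    (hN : Pool.Agent.Y424.LK.twr (s + 1)
      (26 * d * Fintype.card κ ^ 2 * (Nat.log 2 n + 1) *
        (Fintype.card κ * (Nat.log 2 n + 1) / Nat.log 2 (d * (Nat.log 2 n + 1)) + 1) +
        Fintype.card κ * (s + 2) ^ 2) ≤ N)
    {c : Finset ℕ → κ} (hvc : ∀ (a : κ) (Z : Finset ℕ), Z ⊆ range N →
      ShatteredBy c a {A | A ⊆ range N ∧ A.card = s + 1} Z → Z.card ≤ d) :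
    ¬ NoHom (s + 2) c N n := by
  classical
  intro hc
  have hq : 1 ≤ Fintype.card κ := Fintype.card_pos_iff.2 ⟨c ∅⟩
  set q := Fintype.card κ with hqd
  set L := Nat.log 2 n + 1 with hL
  have hL2 : 2 ≤ L := by
    have := Nat.log_pos (b := 2) (by norm_num) hn
    omega
  set l := Nat.log 2 (d * L) with hl
  have hdL : 2 ≤ d * L := le_trans hL2 (Nat.le_mul_of_pos_left _ (by omega))
  have hl1 : 1 ≤ l := Nat.log_pos (b := 2) (by norm_num) hdL
  have hl2 : 2 ^ l ≤ d * L := Nat.pow_log_le_self 2 (by omega)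
  set J := q * L / l + 1 with hJ
  obtain ⟨U, S, hU, hS, hUc, hSc, hlt, -, hcl⟩ := exists_linkQ κ q hq
    Nat.lt_two_pow_self.le s (13 * d * q ^ 2 * L * J) n N (by
      rw [show 2 * (13 * d * q ^ 2 * L * J) = 26 * d * q ^ 2 * L * J by ring]
      exact hN) c hc.homogeneous
  have hVC : ∀ a, VCle (colourLink c a U S) d := by
    intro a Z hZ
    have h5 := shatteredBy_of_shat hlt hZ
    rw [← card_image_of_injective Z Subtype.val_injective]
    apply hvc a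
    · intro x hx
      obtain ⟨x', -, rfl⟩ := mem_image.1 hx
      exact hU x'.2
    · intro T hT
      obtain ⟨A, ⟨v, hv, rfl⟩, h6⟩ := h5 T hT
      refine ⟨insert v S, ⟨?_, ?_⟩, h6⟩
      · exact insert_subset (hU hv) hS
      · rw [card_insert_of_notMem, hSc]
        intro h
        exact lt_irrefl _ (hlt v hv v h)
  have hθ1 : 1 ≤ 2 * 2 ^ (q * L) * q := by
    have : 0 < 2 * 2 ^ (q * L) * q := by positivity
    exact this
  obtain ⟨a, Q, hQ, hQn, hQa⟩ := hom_of_levels (g := fun x y => c (insert x (insert y S)))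
    (θ := 2 * 2 ^ (q * L) * q) (H := 2 ^ (q * L)) (t := 2 ^ l) (j := J) (n := n) (U := U)
    (MA := (176 * (2 * 2 ^ (q * L) * q)) ^ (d * q)) (MB := 2 * q)
    (fun x y => by rw [insert_comm]) le_rfl hθ1 (Nat.one_le_pow _ _ (by omega)) (by omega)
    (dom_cluster hVC hθ1) Nat.one_le_two_pow (by
      rw [hJ, Nat.add_sub_cancel, ← pow_mul]
      exact Nat.pow_le_pow_right (by norm_num) (Nat.mul_div_le _ _)) (by
      refine (log_bound n q).trans ?_
      rw [← pow_mul, hJ]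
      exact Nat.pow_le_pow_right (by norm_num) (Nat.lt_mul_div_succ _ (by omega)).le) (by
      rw [hUc]
      exact clu_size hq hd hL2 hl2)
  exact no_hom_link hcl a Q hQ hQn hQa

theorem tow_le_exp {x : ℝ} (hx : 0 ≤ x) (k : ℕ) :
    0 ≤ tow k x ∧ tow k x ≤ Real.exp^[k] x := by
  induction k with
  | zero => exact ⟨hx, le_rfl⟩
  | succ k ih =>
    have h1 : tow (k + 1) x = 2 ^ tow k x := rfl
    rw [h1, Function.iterate_succ_apply']
    refine ⟨by positivity, ?_⟩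
    have h2 : (2 : ℝ) ≤ Real.exp 1 := by
      have := Real.add_one_le_exp (1 : ℝ)
      linarith
    calc (2 : ℝ) ^ tow k x ≤ (Real.exp 1) ^ tow k x :=
          Real.rpow_le_rpow (by norm_num) h2 ih.1
      _ = Real.exp (tow k x) := Real.exp_one_rpow _
      _ ≤ _ := Real.exp_le_exp.2 ih.2

/-- **Linearly many vertices.** -/
theorem linear : ∃ c₀ : ℝ, 0 < c₀ ∧ ∀ (q s : ℕ) (ε : ℝ), 0 < ε → ε ≤ 1 → ∃ n₀ : ℕ,
    ∀ (κ : Type) [Fintype κ], Fintype.card κ = q →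
    ∀ n N : ℕ, n₀ ≤ n → Real.exp^[s + 1] (ε * n) ≤ N → ∀ c : Finset ℕ → κ,
      NoHom (s + 2) c N n →
      ∀ d : ℕ, (d : ℝ) ≤ c₀ * ε / ((q : ℝ) ^ 3 * Real.log (2 * q / ε)) * n →
        2 ^ (d ^ 2) ≤ (2 * d + s) ^ (2 * d + s) * patternCount (s + 2) c N (2 * d + s) := by
  classical
  obtain ⟨c₁, hc₁, hstr⟩ := structQ
  refine ⟨min c₁ (1 / 300), by positivity, ?_⟩
  intro q s ε hε hε1
  obtain ⟨n₁, hn₁⟩ := hstr q s ε hε hε1
  obtain ⟨n₂, hn₂⟩ := exists_nat_ge (16 / ε ^ 2)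
  refine ⟨max n₁ (max n₂ 16), ?_⟩
  intro κ _ hκ n N hn hN c hc d hd
  have hq : 1 ≤ q := by
    rw [← hκ]
    exact Fintype.card_pos_iff.2 ⟨c ∅⟩
  have hn16 : 16 ≤ n := le_of_max_le_right (le_of_max_le_right hn)
  have hn2 : 16 / ε ^ 2 ≤ (n : ℝ) :=
    hn₂.trans (by exact_mod_cast le_of_max_le_left (le_of_max_le_right hn))
  obtain ⟨U, S, hU, hS, hUc, hSc, hlt, -, -, a, Z, hZU, hZ, hZc⟩ :=
    hn₁ κ hκ n N (le_of_max_le_left hn)
      (((tow_le_exp (by positivity) (s + 1)).2).trans hN) c hc.homogeneous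
  set m := ⌊ε / 3 * n⌋₊ with hm
  have hq' : (1 : ℝ) ≤ q := by exact_mod_cast hq
  have hn' : (16 : ℝ) ≤ n := by exact_mod_cast hn16
  have hεn : 16 ≤ ε * n := by
    rw [div_le_iff₀ (by positivity)] at hn2
    nlinarith
  have hm1 : ε / 4 * n ≤ m := by
    have h1 := Nat.lt_floor_add_one (ε / 3 * (n : ℝ))
    rw [← hm] at h1
    linarith
  have hm4 : 4 ≤ m := by
    have : (4 : ℝ) ≤ m := by linarith
    exact_mod_cast this
  have hnm : n ≤ 2 ^ m := by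
    refine le_trans ?_ (sq_le_two_pow hm4)
    have h1 : (n : ℝ) ≤ (m : ℝ) ^ 2 := by
      rw [div_le_iff₀ (by positivity)] at hn2
      have h2 : (ε / 4 * n) ^ 2 ≤ (m : ℝ) ^ 2 := pow_le_pow_left₀ (by positivity) hm1 2
      nlinarith
    exact_mod_cast h1
  have hdisj : Disjoint U S := by
    rw [disjoint_left]
    intro x hx hxS
    exact lt_irrefl _ (hlt x hx x hxS)
  have hNU : 2 ^ m + s ≤ N := by
    have h1 := card_le_card (union_subset hU hS)
    rw [card_union_of_disjoint hdisj, hUc, hSc, card_range] at h1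
    exact h1
  have hc300 : min c₁ (1 / 300) ≤ 1 / 300 := min_le_right _ _
  have hcpos : 0 < min c₁ (1 / 300) := by positivity
  have hq3 : (1 : ℝ) ≤ (q : ℝ) ^ 3 := one_le_pow₀ hq'
  have hlog : 1 / 2 ≤ Real.log (2 * q / ε) := by
    have h1 : (2 : ℝ) ≤ 2 * q / ε := by
      rw [le_div_iff₀ hε]
      nlinarith
    have h2 := Real.log_le_log (by norm_num) h1
    have := Real.log_two_gt_d9
    linarith
  have hden : 1 / 2 ≤ (q : ℝ) ^ 3 * Real.log (2 * q / ε) := by nlinarith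
  have hdn : 2 * d ≤ n := by
    have h1 : (d : ℝ) * ((q : ℝ) ^ 3 * Real.log (2 * q / ε)) ≤ 1 / 300 * (ε * n) := by
      have h2 : min c₁ (1 / 300) * ε / ((q : ℝ) ^ 3 * Real.log (2 * q / ε)) * n =
          min c₁ (1 / 300) * (ε * n) / ((q : ℝ) ^ 3 * Real.log (2 * q / ε)) := by ring
      rw [h2, le_div_iff₀ (by linarith)] at hd
      exact hd.trans (mul_le_mul_of_nonneg_right hc300 (by linarith))
    have h3 : (d : ℝ) * (1 / 2) ≤ d * ((q : ℝ) ^ 3 * Real.log (2 * q / ε)) :=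
      mul_le_mul_of_nonneg_left hden (Nat.cast_nonneg _)
    have h4 : (2 : ℝ) * d ≤ n := by nlinarith
    exact_mod_cast h4
  have hdZ : d ≤ Z.card := by
    have h1 : (d : ℝ) ≤ Z.card := by
      refine hd.trans (le_trans ?_ hZc)
      have h2 : min c₁ (1 / 300) ≤ c₁ := min_le_left _ _
      gcongr
    exact_mod_cast h1
  exact pat_of_shattered hU hS hSc hlt hZU hZ hdZ (by omega)

end Pool.Agent.T3h47.PC
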