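import Pool.Agent.T3h47.PC.Count
import Pool.Agent.T3h47.PC.LowAsy

/-!
# Few patterns: bounded higher VC-dimension
-/

set_option autoImplicit false

namespace Pool.Agent.T3h47.PC

open Finset

theorem vc_aux {κ : Type} [Finite κ] {r j d e N : ℕ} (hj : j ≤ r) (hr : 4 ≤ r * d)
    {c : Finset ℕ → κ} {a : κ}
    (hc : ∀ k, patternCount r c N k ≤ k ^ (e * k) * 2 ^ (k.choose j))
    (h : BoxShattered r j d c a N) :
    2 * (d ^ j * d) ≤ (e + 1) * (r * d) ^ 2 + 2 * (r * d).choose j := by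
  set M := r * d with hM
  have h1 : 2 ^ (d ^ j * d) ≤ M ^ ((e + 1) * M) * 2 ^ (M.choose j) := by
    have hle : min M N ≤ M := min_le_left _ _
    have h2 := box_le hj (k := min M N) (by
      rcases le_total M N with h3 | h3
      · left; rw [min_eq_left h3]
      · right; rw [min_eq_right h3]) (min_le_right _ _) h
    refine h2.trans ((Nat.mul_le_mul_left _ (hc _)).trans ?_)
    rw [← hM, ← mul_assoc, show (e + 1) * M = M + e * M by ring, pow_add]
    apply Nat.mul_le_mul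
    · apply Nat.mul_le_mul (Nat.pow_le_pow_left hle _)
      exact (Nat.pow_le_pow_left hle _).trans
        (Nat.pow_le_pow_right (by omega) (Nat.mul_le_mul_left _ hle))
    · exact Nat.pow_le_pow_right (by norm_num) (Nat.choose_le_choose _ hle)
  have h4 : 2 ^ (2 * (d ^ j * d)) ≤ 2 ^ ((e + 1) * M ^ 2 + 2 * M.choose j) := by
    calc 2 ^ (2 * (d ^ j * d)) = (2 ^ (d ^ j * d)) ^ 2 := by rw [← pow_mul, mul_comm]
      _ ≤ (M ^ ((e + 1) * M) * 2 ^ (M.choose j)) ^ 2 := Nat.pow_le_pow_left h1 _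
      _ = (M ^ 2) ^ ((e + 1) * M) * 2 ^ (2 * M.choose j) := by
          rw [mul_pow, ← pow_mul, ← pow_mul, ← pow_mul, mul_comm _ 2, mul_comm _ 2]
      _ ≤ (2 ^ M) ^ ((e + 1) * M) * 2 ^ (2 * M.choose j) :=
          Nat.mul_le_mul_right _ (Nat.pow_le_pow_left (sq_le_two_pow hr) _)
      _ = 2 ^ ((e + 1) * M ^ 2 + 2 * M.choose j) := by
          rw [← pow_mul, ← pow_add]
          congr 1
          ring
  exact (Nat.pow_le_pow_iff_right (by norm_num)).1 h4

theorem two_choose_two (M : ℕ) : 2 * M.choose 2 ≤ M ^ 2 := by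
  rw [Nat.choose_two_right, mul_comm]
  refine (Nat.div_mul_le_self _ _).trans ?_
  rw [sq]
  exact Nat.mul_le_mul_left _ (Nat.sub_le _ _)

theorem two_choose_three (M : ℕ) : 2 * M.choose 3 ≤ M ^ 3 := by
  have h1 : (M.choose 3 : ℝ) ≤ (M : ℝ) ^ 3 / (Nat.factorial 3 : ℕ) := Nat.choose_le_pow_div 3 M
  have h2 : ((Nat.factorial 3 : ℕ) : ℝ) = 6 := by norm_num [Nat.factorial]
  rw [h2] at h1
  have h3 : (0 : ℝ) ≤ (M : ℝ) ^ 3 := by positivity
  have h4 : (2 : ℝ) * (M.choose 3 : ℝ) ≤ (M : ℝ) ^ 3 := by linarith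
  exact_mod_cast h4

/-- Patterns as many as graphs: bounded VC₂-dimension. -/
theorem vc_two {κ : Type} [Finite κ] {r N : ℕ} (hr : 2 ≤ r) {c : Finset ℕ → κ}
    (hc : ∀ k, patternCount r c N k ≤ k ^ ((r - 2) * k) * 2 ^ (k.choose 2)) :
    VCLe r 2 (r ^ 3) c N := by
  intro d a h
  by_contra hd
  push Not at hd
  have h8 : 2 ^ 3 ≤ r ^ 3 := Nat.pow_le_pow_left hr 3
  have hM4 : 4 ≤ r * d := by nlinarith
  have h1 := vc_aux hr hM4 hc h
  have h2 := two_choose_two (r * d)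
  have h3 : 2 * (d ^ 2 * d) ≤ r ^ 3 * d ^ 2 := by
    obtain ⟨e, rfl⟩ : ∃ e, r = e + 2 := ⟨r - 2, by omega⟩
    rw [Nat.add_sub_cancel] at h1
    have e1 : (e + 1) * ((e + 2) * d) ^ 2 + ((e + 2) * d) ^ 2 = (e + 2) ^ 3 * d ^ 2 := by ring
    omega
  have h4 : 0 < d ^ 2 := by
    have : 0 < d := by omega
    positivity
  nlinarith

/-- Patterns as many as triple systems: bounded VC₃-dimension. -/
theorem vc_three {κ : Type} [Finite κ] {r N : ℕ} (hr : 3 ≤ r) {c : Finset ℕ → κ}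
    (hc : ∀ k, patternCount r c N k ≤ k ^ ((r - 3) * k) * 2 ^ (k.choose 3)) :
    VCLe r 3 (r ^ 3) c N := by
  intro d a h
  by_contra hd
  push Not at hd
  have h8 : 3 ^ 3 ≤ r ^ 3 := Nat.pow_le_pow_left hr 3
  have hM4 : 4 ≤ r * d := by nlinarith
  have h1 := vc_aux hr hM4 hc h
  have h2 := two_choose_three (r * d)
  have hd1 : 1 ≤ d := by omega
  have h3 : 2 * (d ^ 3 * d) ≤ 2 * (r ^ 3 * d ^ 3) := by
    have h5 : (r - 3 + 1) * (r * d) ^ 2 ≤ (r * d) ^ 3 := by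
      rw [pow_succ (r * d) 2, mul_comm]
      apply Nat.mul_le_mul_left
      have : r ≤ r * d := Nat.le_mul_of_pos_right _ (by omega)
      omega
    have e1 : (r * d) ^ 3 = r ^ 3 * d ^ 3 := by ring
    omega
  have h4 : 0 < d ^ 3 := by positivity
  nlinarith

end Pool.Agent.T3h47.PC
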