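import Mathlib

/-!
# Few patterns of pairs: large homogeneous sets

Colourings of pairs with few patterns contain complete tree-like colourings.
-/

set_option autoImplicit false

namespace Pool.Agent.T3h47.PC

open Finset

variable {κ : Type} [DecidableEq κ]

/-- The neighbours in the set `B` in the colour `a`. -/
def nb (g : ℕ → ℕ → κ) (a : κ) (x : ℕ) (B : Finset ℕ) : Finset ℕ := B.filter fun y => y ≠ x ∧ g x y = a

theorem mem_nb {g : ℕ → ℕ → κ} {a : κ} {x y : ℕ} {B : Finset ℕ} :
    y ∈ nb g a x B ↔ y ∈ B ∧ y ≠ x ∧ g x y = a := by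
  unfold nb
  rw [mem_filter]

theorem nb_subset {g : ℕ → ℕ → κ} {a : κ} {x : ℕ} {B : Finset ℕ} : nb g a x B ⊆ B :=
  filter_subset _ _

/-- A vertex with one dominating colour. -/
theorem dom_of [Fintype κ] {g : ℕ → ℕ → κ} {θ : ℕ} {x : ℕ} {B : Finset ℕ} {a : κ}
    (hB : θ ≤ B.card) (h : ∀ b, b ≠ a → θ * (nb g b x B).card < B.card) :
    θ * (B \ nb g a x B).card ≤ Fintype.card κ * B.card := by
  have h1 : B \ nb g a x B ⊆ insert x ((univ.erase a).biUnion fun b => nb g b x B) := by
    intro y hy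
    rw [mem_sdiff, mem_nb] at hy
    rw [mem_insert, mem_biUnion]
    by_cases hyx : y = x
    · exact Or.inl hyx
    · right
      refine ⟨g x y, mem_erase.2 ⟨fun h2 => hy.2 ⟨hy.1, hyx, h2⟩, mem_univ _⟩, ?_⟩
      rw [mem_nb]
      exact ⟨hy.1, hyx, rfl⟩
  have h2 : (B \ nb g a x B).card ≤ 1 + ∑ b ∈ univ.erase a, (nb g b x B).card := by
    refine (card_le_card h1).trans ((card_insert_le _ _).trans ?_)
    rw [add_comm]
    exact Nat.add_le_add_left card_biUnion_le _
  have h3 : ∑ b ∈ univ.erase a, θ * (nb g b x B).card ≤ ∑ b ∈ univ.erase a, B.card :=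
    sum_le_sum fun b hb => (h b (mem_erase.1 hb).1).le
  rw [sum_const, smul_eq_mul, card_erase_of_mem (mem_univ a), card_univ, ← mul_sum] at h3
  have hq : 1 ≤ Fintype.card κ := Fintype.card_pos_iff.2 ⟨a⟩
  calc θ * (B \ nb g a x B).card ≤ θ * (1 + ∑ b ∈ univ.erase a, (nb g b x B).card) :=
        Nat.mul_le_mul_left _ h2
    _ = θ + θ * ∑ b ∈ univ.erase a, (nb g b x B).card := by ring
    _ ≤ B.card + (Fintype.card κ - 1) * B.card := Nat.add_le_add hB h3
    _ = Fintype.card κ * B.card := by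
        obtain ⟨m, hm⟩ : ∃ m, Fintype.card κ = m + 1 := ⟨Fintype.card κ - 1, by omega⟩
        rw [hm, Nat.add_sub_cancel]
        ring

/-- **Embedding.** Without dominating pairs there are many patterns. -/
theorem embed [Fintype κ] (g : ℕ → ℕ → κ) {θ X K : ℕ} (hθ : 1 ≤ θ) (hθX : θ ≤ X)
    {W : Finset ℕ}
    (hnd : ∀ A ⊆ W, ∀ B ⊆ W, X ≤ A.card → X ≤ B.card → ∀ a : κ,
      ∃ x ∈ A, Fintype.card κ * B.card < θ * (B \ nb g a x B).card) :
    ∀ k ≤ K, ∀ V : Fin k → Finset ℕ, (∀ i, V i ⊆ W) →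
      (∀ i, K * Fintype.card κ * X * θ ^ k ≤ (V i).card) →
      ∃ u : Fin (2 ^ (k.choose 2)) → Fin k → ℕ, (∀ e i, u e i ∈ V i) ∧
        (∀ e i j, i < j → u e i ≠ u e j) ∧
        ∀ e e', (∀ i j, i < j → g (u e i) (u e j) = g (u e' i) (u e' j)) → e = e' := by
  classical
  intro k
  induction k with
  | zero =>
    intro _ V _ _
    refine ⟨fun _ i => i.elim0, fun _ i => i.elim0, fun _ i => i.elim0, fun e e' _ => ?_⟩
    have h1 : (0 : ℕ).choose 2 = 0 := rfl
    have := e.2
    have := e'.2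
    apply Fin.ext
    simp only [h1, pow_zero] at *
    omega
  | succ k ih =>
    intro hk V hVW hV
    have hq : 1 ≤ Fintype.card κ := Fintype.card_pos_iff.2 ⟨g 0 0⟩
    have hX : 1 ≤ X := hθ.trans hθX
    have hVX : ∀ i, X ≤ (V i).card := by
      intro i
      refine le_trans ?_ (hV i)
      calc X = 1 * 1 * X * 1 := by ring
        _ ≤ K * Fintype.card κ * X * θ ^ (k + 1) := by
          gcongr
          · omega
          · exact Nat.one_le_pow _ _ hθ
    -- a good first vertex
    have hex : ∃ v ∈ V 0, ∀ j : Fin k, ∃ a b : κ, a ≠ b ∧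
        (V j.succ).card ≤ θ * (nb g a v (V j.succ)).card ∧
        (V j.succ).card ≤ θ * (nb g b v (V j.succ)).card := by
      by_contra hcon
      push Not at hcon
      -- the dominating colour
      have h1 : ∀ v ∈ V 0, ∃ (j : Fin k) (a : κ), ∀ b, b ≠ a →
          θ * (nb g b v (V j.succ)).card < (V j.succ).card := by
        intro v hv
        obtain ⟨j, hj⟩ := hcon v hv
        by_cases h2 : ∃ a, (V j.succ).card ≤ θ * (nb g a v (V j.succ)).card
        · obtain ⟨a, ha⟩ := h2
          exact ⟨j, a, fun b hb => hj a b hb.symm ha⟩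
        · push Not at h2
          exact ⟨j, g 0 0, fun b _ => h2 b⟩
      obtain ⟨v₀, hv₀⟩ : (V 0).Nonempty := card_pos.1 (by have := hVX 0; omega)
      obtain ⟨j₁, -⟩ := h1 v₀ hv₀
      have hne1 : Nonempty (Fin k) := ⟨j₁⟩
      have hne2 : Nonempty κ := ⟨g 0 0⟩
      choose! j a hja using h1
      have hcard : (univ ×ˢ univ : Finset (Fin k × κ)).card * X ≤ (V 0).card := by
        rw [card_product, card_univ, card_univ, Fintype.card_fin]
        refine le_trans ?_ (hV 0)
        calc k * Fintype.card κ * X = k * Fintype.card κ * X * 1 := by ring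
          _ ≤ K * Fintype.card κ * X * θ ^ (k + 1) := by
            gcongr
            · omega
            · exact Nat.one_le_pow _ _ hθ
      have hk0 : 0 < k := by
        have := j₁.2
        omega
      have hne : (univ ×ˢ univ : Finset (Fin k × κ)).Nonempty := by
        rw [← card_pos, card_product, card_univ, card_univ, Fintype.card_fin]
        exact Nat.mul_pos hk0 hq
      obtain ⟨⟨j₀, a₀⟩, -, hfib⟩ := exists_le_card_fiber_of_mul_le_card_of_maps_to
        (f := fun v => (j v, a v)) (s := V 0) (t := univ ×ˢ univ) (n := X)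
        (fun v _ => by simp) hne hcard
      obtain ⟨x, hx, hx2⟩ := hnd _ ((filter_subset _ _).trans (hVW 0)) (V j₀.succ)
        (hVW _) hfib (hVX _) a₀
      rw [mem_filter, Prod.mk.injEq] at hx
      obtain ⟨hx0, hxj, hxa⟩ := hx
      have h3 := hja x hx0
      rw [hxj, hxa] at h3
      have h4 := dom_of (hθX.trans (hVX _)) h3
      omega
    obtain ⟨v, hv, hab⟩ := hex
    choose α β hαβ hα hβ using hab
    -- the remaining sets
    let V' : (Fin k → Bool) → Fin k → Finset ℕ := fun e j =>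
      nb g (if e j then α j else β j) v (V j.succ)
    have hV' : ∀ e j, K * Fintype.card κ * X * θ ^ k ≤ (V' e j).card := by
      intro e j
      have h1 : (V j.succ).card ≤ θ * (V' e j).card := by
        simp only [V']
        split_ifs
        · exact hα j
        · exact hβ j
      have h2 := (hV j.succ).trans h1
      rw [pow_succ, show K * Fintype.card κ * X * (θ ^ k * θ) =
        θ * (K * Fintype.card κ * X * θ ^ k) by ring] at h2
      exact Nat.le_of_mul_le_mul_left h2 (by omega)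
    choose u hu1 hu2 hu3 using fun e => ih (by omega) (V' e)
      (fun j => nb_subset.trans (hVW _)) (hV' e)
    have hcard : Fintype.card (Fin (2 ^ ((k + 1).choose 2))) =
        Fintype.card ((Fin k → Bool) × Fin (2 ^ (k.choose 2))) := by
      rw [Fintype.card_fin, Fintype.card_prod, Fintype.card_fun, Fintype.card_bool,
        Fintype.card_fin, Fintype.card_fin, ← pow_add, Nat.choose_succ_succ' k 1, Nat.choose_one_right]
    let F := Fintype.equivOfCardEq hcard
    refine ⟨fun e => Fin.cons v (u (F e).1 (F e).2), ?_, ?_, ?_⟩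
    · intro e i
      refine Fin.cases ?_ (fun i => ?_) i
      · simp only [Fin.cons_zero]
        exact hv
      · simp only [Fin.cons_succ]
        exact nb_subset (hu1 _ _ i)
    · intro e i j
      refine Fin.cases ?_ (fun i => ?_) i
      · refine Fin.cases ?_ (fun j => ?_) j
        · intro h; exact absurd h (lt_irrefl _)
        · intro _
          simp only [Fin.cons_zero, Fin.cons_succ]
          exact (mem_nb.1 (hu1 _ _ j)).2.1.symm
      · refine Fin.cases ?_ (fun j => ?_) j
        · intro h; exact absurd h (Fin.not_lt_zero _)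
        · intro h
          simp only [Fin.cons_succ]
          exact hu2 _ _ i j (Fin.succ_lt_succ_iff.1 h)
    · intro e e' h
      apply F.injective
      have h1 : (F e).1 = (F e').1 := by
        funext j
        have h2 := h 0 j.succ (Fin.succ_pos j)
        simp only [Fin.cons_zero, Fin.cons_succ] at h2
        rw [(mem_nb.1 (hu1 _ _ j)).2.2, (mem_nb.1 (hu1 _ _ j)).2.2] at h2
        have h7 := hαβ j
        clear_value F
        revert h2
        generalize (F e).1 j = b
        generalize (F e').1 j = b'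
        cases b <;> cases b'
        · intro _; rfl
        · intro h2
          exact absurd h2.symm h7
        · intro h2
          exact absurd h2 h7
        · intro _; rfl
      have h5 := hu3 (F e).1 (F e).2 (F e').2 (by
        intro i j hij
        have h2 := h i.succ j.succ (Fin.succ_lt_succ_iff.2 hij)
        simp only [Fin.cons_succ] at h2
        rw [h2, h1])
      exact Prod.ext h1 h5

/-- Complete tree-like colourings. -/
inductive Cog (g : ℕ → ℕ → κ) : ℕ → Finset ℕ → Prop
  | leaf (x : ℕ) : Cog g 0 {x}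
  | node {D : ℕ} (a : κ) {Y Z : Finset ℕ} (hY : Cog g D Y) (hZ : Cog g D Z)
      (h : ∀ y ∈ Y, ∀ z ∈ Z, z ≠ y ∧ g y z = a) : Cog g (D + 1) (Y ∪ Z)

omit [DecidableEq κ] in
theorem Cog.card_le {g : ℕ → ℕ → κ} {D : ℕ} {Y : Finset ℕ} (h : Cog g D Y) :
    Y.card ≤ 2 ^ D := by
  induction h with
  | leaf x => simp
  | node a hY hZ h ih1 ih2 =>
    refine (card_union_le _ _).trans ?_
    rw [pow_succ]
    omega

/-- Homogeneous sets of tree-like colourings. -/
theorem Cog.hom [Fintype κ] {g : ℕ → ℕ → κ} (hg : ∀ x y, g x y = g y x) {D : ℕ} {Y : Finset ℕ}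
    (h : Cog g D Y) : ∃ f : κ → ℕ, 2 ^ D ≤ ∏ a, f a ∧
      ∀ a, ∃ S ⊆ Y, S.card = f a ∧ ∀ x ∈ S, ∀ y ∈ S, x ≠ y → g x y = a := by
  induction h with
  | leaf x =>
    refine ⟨fun _ => 1, by simp, fun a => ⟨{x}, Subset.rfl, by simp, ?_⟩⟩
    intro y hy z hz hyz
    rw [mem_singleton] at hy hz
    exact absurd (hy.trans hz.symm) hyz
  | @node D a Y Z hY hZ h ih1 ih2 =>
    obtain ⟨f, hf, hfS⟩ := ih1
    obtain ⟨f', hf', hfS'⟩ := ih2
    refine ⟨fun b => if b = a then f b + f' b else max (f b) (f' b), ?_, ?_⟩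
    · rw [← mul_prod_erase univ _ (mem_univ a), if_pos rfl, add_mul, pow_succ, mul_two]
      have h1 : ∏ b ∈ univ.erase a, f b ≤
          ∏ b ∈ univ.erase a, (if b = a then f b + f' b else max (f b) (f' b)) := by
        apply prod_le_prod' fun b hb => ?_
        rw [if_neg (mem_erase.1 hb).1]
        exact le_max_left _ _
      have h2 : ∏ b ∈ univ.erase a, f' b ≤
          ∏ b ∈ univ.erase a, (if b = a then f b + f' b else max (f b) (f' b)) := by
        apply prod_le_prod' fun b hb => ?_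
        rw [if_neg (mem_erase.1 hb).1]
        exact le_max_right _ _
      rw [← mul_prod_erase univ _ (mem_univ a)] at hf hf'
      exact Nat.add_le_add (hf.trans (Nat.mul_le_mul_left _ h1))
        (hf'.trans (Nat.mul_le_mul_left _ h2))
    · intro b
      by_cases hb : b = a
      · subst hb
        obtain ⟨S, hS, hSc, hSb⟩ := hfS b
        obtain ⟨S', hS', hSc', hSb'⟩ := hfS' b
        refine ⟨S ∪ S', union_subset_union hS hS', ?_, ?_⟩
        · simp only [if_pos]
          rw [card_union_of_disjoint, hSc, hSc']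
          rw [disjoint_left]
          intro y hy hy'
          exact (h y (hS hy) y (hS' hy')).1 rfl
        · intro x hx y hy hxy
          rcases mem_union.1 hx with hx | hx <;> rcases mem_union.1 hy with hy | hy
          · exact hSb x hx y hy hxy
          · exact (h x (hS hx) y (hS' hy)).2
          · rw [hg]
            exact (h y (hS hy) x (hS' hx)).2
          · exact hSb' x hx y hy hxy
      · simp only [if_neg hb]
        rcases le_total (f b) (f' b) with hle | hle
        · obtain ⟨S', hS', hSc', hSb'⟩ := hfS' b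
          exact ⟨S', hS'.trans subset_union_right, by rw [hSc', max_eq_right hle], hSb'⟩
        · obtain ⟨S, hS, hSc, hSb⟩ := hfS b
          exact ⟨S, hS.trans subset_union_left, by rw [hSc, max_eq_left hle], hSb⟩

/-- Many patterns of `k` vertices. -/
def ManyPat (g : ℕ → ℕ → κ) (k : ℕ) (W : Finset ℕ) : Prop :=
  ∃ u : Fin (2 ^ (k.choose 2)) → Fin k → ℕ, (∀ e i, u e i ∈ W) ∧
    (∀ e i j, i < j → u e i ≠ u e j) ∧
    ∀ e e', (∀ i j, i < j → g (u e i) (u e j) = g (u e' i) (u e' j)) → e = e'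

omit [DecidableEq κ] in
theorem ManyPat.mono {g : ℕ → ℕ → κ} {k : ℕ} {W W' : Finset ℕ} (h : ManyPat g k W)
    (hW : W ⊆ W') : ManyPat g k W' := by
  obtain ⟨u, h1, h2, h3⟩ := h
  exact ⟨u, fun e i => hW (h1 e i), h2, h3⟩

/-- Dominating pairs: tree-like subsets. -/
theorem exists_cog [Fintype κ] (g : ℕ → ℕ → κ) {θ D₀ M : ℕ} {U : Finset ℕ}
    (hθ : 2 ^ (D₀ + 1) * Fintype.card κ ≤ θ)
    (hdom : ∀ X, θ ≤ X → ∀ W ⊆ U, M * X ≤ W.card → ∃ A ⊆ W, ∃ B ⊆ W, X ≤ A.card ∧ X ≤ B.card ∧
      ∃ a : κ, ∀ x ∈ A, θ * (B \ nb g a x B).card ≤ Fintype.card κ * B.card) :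
    ∀ D ≤ D₀, ∀ W ⊆ U, (2 * M * θ) ^ D ≤ W.card → ∃ Y ⊆ W, Cog g D Y := by
  classical
  have hq : 1 ≤ Fintype.card κ := Fintype.card_pos_iff.2 ⟨g 0 0⟩
  have hθ1 : 1 ≤ θ := le_trans (Nat.mul_pos (by positivity) hq) hθ
  intro D
  induction D with
  | zero =>
    intro _ W _ hW
    obtain ⟨x, hx⟩ : W.Nonempty := card_pos.1 (by simpa using hW)
    exact ⟨{x}, singleton_subset_iff.2 hx, Cog.leaf x⟩
  | succ D ih =>
    intro hD W hWU hW
    set q := Fintype.card κ with hqd
    rcases Nat.eq_zero_or_pos M with hM | hM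
    · obtain ⟨A, hA, B, hB, hAc, hBc, -⟩ := hdom (W.card + θ) (by omega) W hWU (by rw [hM]; simp)
      have := card_le_card hA
      omega
    set XD := (2 * M * θ) ^ D with hXD
    have hXD1 : 1 ≤ XD := Nat.one_le_pow _ _ (by positivity)
    -- a dominating pair
    obtain ⟨A, hA, B, hB, hAc, hBc, a, hab⟩ := hdom (2 * XD * θ) (by nlinarith) W hWU (by
      refine le_trans (le_of_eq ?_) hW
      rw [pow_succ, ← hXD]
      ring)
    have hle : XD ≤ 2 * XD * θ := by nlinarith
    obtain ⟨Y, hY, hYc⟩ := ih (by omega) A (hA.trans hWU) (hle.trans hAc)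
    set B' := B \ Y.biUnion fun y => B \ nb g a y B with hB'
    have h1 : θ * (Y.biUnion fun y => B \ nb g a y B).card ≤ 2 ^ D * (q * B.card) := by
      calc θ * (Y.biUnion fun y => B \ nb g a y B).card
          ≤ θ * ∑ y ∈ Y, (B \ nb g a y B).card := Nat.mul_le_mul_left _ card_biUnion_le
        _ = ∑ y ∈ Y, θ * (B \ nb g a y B).card := by rw [mul_sum]
        _ ≤ ∑ _y ∈ Y, q * B.card := sum_le_sum fun y hy => hab y (hY hy)
        _ = Y.card * (q * B.card) := by rw [sum_const, smul_eq_mul]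
        _ ≤ 2 ^ D * (q * B.card) := Nat.mul_le_mul_right _ hYc.card_le
    have h2 : 2 * (Y.biUnion fun y => B \ nb g a y B).card ≤ B.card := by
      have h3 : 2 ^ (D + 1) * q ≤ θ :=
        (Nat.mul_le_mul_right _ (Nat.pow_le_pow_right (by norm_num) (by omega))).trans hθ
      have h4 : θ * (2 * (Y.biUnion fun y => B \ nb g a y B).card) ≤ θ * B.card := by
        calc θ * (2 * (Y.biUnion fun y => B \ nb g a y B).card)
            = 2 * (θ * (Y.biUnion fun y => B \ nb g a y B).card) := by ring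
          _ ≤ 2 * (2 ^ D * (q * B.card)) := Nat.mul_le_mul_left _ h1
          _ = 2 ^ (D + 1) * q * B.card := by ring
          _ ≤ θ * B.card := Nat.mul_le_mul_right _ h3
      exact Nat.le_of_mul_le_mul_left h4 (by omega)
    have h5 : XD ≤ B'.card := by
      have h6 : B.card ≤ B'.card + (Y.biUnion fun y => B \ nb g a y B).card := by
        rw [hB']
        have := le_card_sdiff (Y.biUnion fun y => B \ nb g a y B) B
        omega
      have h7 : 2 * XD ≤ 2 * XD * θ := Nat.le_mul_of_pos_right _ (by omega)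
      omega
    obtain ⟨Z, hZ, hZc⟩ := ih (by omega) B' (sdiff_subset.trans (hB.trans hWU)) h5
    refine ⟨Y ∪ Z, union_subset (hY.trans hA) (hZ.trans (sdiff_subset.trans hB)),
      Cog.node a hYc hZc ?_⟩
    intro y hy z hz
    have h8 := hZ hz
    rw [hB', mem_sdiff, mem_biUnion] at h8
    push Not at h8
    have h9 : z ∈ nb g a y B := by
      by_contra h10
      exact h8.2 y hy (mem_sdiff.2 ⟨h8.1, h10⟩)
    rw [mem_nb] at h9
    exact h9.2

/-- **Homogeneous sets** from dominating pairs. -/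
theorem hom_of_dom [Fintype κ] (g : ℕ → ℕ → κ) (hg : ∀ x y, g x y = g y x) {n D M : ℕ}
    (hn : n ^ Fintype.card κ ≤ 2 ^ D) (U : Finset ℕ)
    (hdom : ∀ X, 2 ^ (D + 1) * Fintype.card κ ≤ X → ∀ W ⊆ U, M * X ≤ W.card →
      ∃ A ⊆ W, ∃ B ⊆ W, X ≤ A.card ∧ X ≤ B.card ∧ ∃ a : κ, ∀ x ∈ A,
        2 ^ (D + 1) * Fintype.card κ * (B \ nb g a x B).card ≤ Fintype.card κ * B.card)
    (hU : (2 * M * (2 ^ (D + 1) * Fintype.card κ)) ^ D ≤ U.card) :
    ∃ (a : κ) (S : Finset ℕ), S ⊆ U ∧ S.card = n ∧ ∀ x ∈ S, ∀ y ∈ S, x ≠ y → g x y = a := by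
  obtain ⟨Y, hY, hYc⟩ := exists_cog g le_rfl hdom D le_rfl U Subset.rfl hU
  obtain ⟨f, hf, hfS⟩ := hYc.hom hg
  have h1 : ∃ a, n ≤ f a := by
    by_contra hcon
    push Not at hcon
    have hq : 1 ≤ Fintype.card κ := Fintype.card_pos_iff.2 ⟨g 0 0⟩
    have h2 : ∏ a, f a < n ^ Fintype.card κ := by
      have h3 : ∏ a, f a ≤ ∏ _a : κ, (n - 1) := prod_le_prod' fun a _ => by
        have := hcon a
        omega
      rw [prod_const, card_univ] at h3
      have hn0 : 0 < n := by
        have := hcon (g 0 0)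
        omega
      exact h3.trans_lt (Nat.pow_lt_pow_left (by omega) (by omega))
    omega
  obtain ⟨a, ha⟩ := h1
  obtain ⟨S, hS, hSc, hSa⟩ := hfS a
  obtain ⟨T, hTS, hTc⟩ := exists_subset_card_eq (ha.trans hSc.ge)
  exact ⟨a, T, hTS.trans (hS.trans hY), hTc, fun x hx y hy hxy =>
    hSa x (hTS hx) y (hTS hy) hxy⟩

/-- **Pairs.** Without homogeneous set of size `n` there are many patterns. -/
theorem many_pat [Fintype κ] (g : ℕ → ℕ → κ) (hg : ∀ x y, g x y = g y x) {n k D : ℕ}
    (hn : n ^ Fintype.card κ ≤ 2 ^ D) (W : Finset ℕ)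
    (hW : (2 * (k * Fintype.card κ * (2 ^ (D + 1) * Fintype.card κ) ^ k) *
      (2 ^ (D + 1) * Fintype.card κ)) ^ D ≤ W.card)
    (hhom : ∀ (a : κ) (S : Finset ℕ), S ⊆ W → S.card = n →
      ¬ ∀ x ∈ S, ∀ y ∈ S, x ≠ y → g x y = a) : ManyPat g k W := by
  by_contra hno
  have hq : 1 ≤ Fintype.card κ := Fintype.card_pos_iff.2 ⟨g 0 0⟩
  obtain ⟨a, S, hS, hSn, hSa⟩ := hom_of_dom g hg hn W (by
    intro X hX W' hW' hW'c
    by_contra hcon
    push Not at hcon
    apply hno
    obtain ⟨u, h1, h2, h3⟩ := embed g (K := k) (X := X) (θ := 2 ^ (D + 1) * Fintype.card κ)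
      (Nat.mul_pos (by positivity) hq) hX (W := W') hcon k le_rfl (fun _ => W')
      (fun _ => Subset.rfl) (by
        intro _
        refine le_trans (le_of_eq ?_) hW'c
        ring)
    exact ⟨u, fun e i => hW' (h1 e i), h2, h3⟩) hW
  exact hhom a S hS hSn hSa

/-! ### Splitting -/

/-- Without dominating pairs there are vertices which split a set in all ways. -/
theorem split [Fintype κ] (g : ℕ → ℕ → κ) {θ X K : ℕ} (hθ : 1 ≤ θ) (hθX : θ ≤ X)
    {W : Finset ℕ}
    (hnd : ∀ A ⊆ W, ∀ B ⊆ W, X ≤ A.card → X ≤ B.card → ∀ a : κ,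
      ∃ x ∈ A, Fintype.card κ * B.card < θ * (B \ nb g a x B).card)
    (hW : 2 ^ K * Fintype.card κ * θ ^ K * X ≤ W.card) :
    ∀ i ≤ K, ∃ (x : Fin i → ℕ) (L : (Fin i → Bool) → Finset ℕ), (∀ j, x j ∈ W) ∧
      (∀ e, L e ⊆ W) ∧ (∀ e, θ ^ (K - i) * X ≤ (L e).card) ∧
      (∀ e, ∀ y ∈ L e, ∀ j, y ≠ x j) ∧
      ∀ e e', e ≠ e' → ∀ y ∈ L e, ∀ y' ∈ L e', ∃ j, g (x j) y ≠ g (x j) y' := by
  classical
  have hq : 1 ≤ Fintype.card κ := Fintype.card_pos_iff.2 ⟨g 0 0⟩
  have hX : 1 ≤ X := hθ.trans hθX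
  intro i
  induction i with
  | zero =>
    intro _
    refine ⟨fun j => j.elim0, fun _ => W, fun j => j.elim0, fun _ => Subset.rfl, fun _ => ?_,
      fun _ _ _ j => j.elim0, fun e e' he => absurd (Subsingleton.elim e e') he⟩
    refine le_trans ?_ hW
    rw [Nat.sub_zero]
    apply Nat.mul_le_mul_right
    exact Nat.le_mul_of_pos_left _ (by positivity)
  | succ i ih =>
    intro hi
    obtain ⟨x, L, hxW, hLW, hLc, hLx, hLd⟩ := ih (by omega)
    have hLX : ∀ e, X ≤ (L e).card := fun e =>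
      (Nat.le_mul_of_pos_left _ (by positivity)).trans (hLc e)
    -- a good vertex
    have hex : ∃ v ∈ W, ∀ e, ∃ a b : κ, a ≠ b ∧
        (L e).card ≤ θ * (nb g a v (L e)).card ∧ (L e).card ≤ θ * (nb g b v (L e)).card := by
      by_contra hcon
      push Not at hcon
      have h1 : ∀ v ∈ W, ∃ (e : Fin i → Bool) (a : κ), ∀ b, b ≠ a →
          θ * (nb g b v (L e)).card < (L e).card := by
        intro v hv
        obtain ⟨e, he⟩ := hcon v hv
        by_cases h2 : ∃ a, (L e).card ≤ θ * (nb g a v (L e)).card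
        · obtain ⟨a, ha⟩ := h2
          exact ⟨e, a, fun b hb => he a b hb.symm ha⟩
        · push Not at h2
          exact ⟨e, g 0 0, fun b _ => h2 b⟩
      have hne2 : Nonempty κ := ⟨g 0 0⟩
      choose! f a hfa using h1
      have hcard : (univ ×ˢ univ : Finset ((Fin i → Bool) × κ)).card * X ≤ W.card := by
        rw [card_product, card_univ, card_univ, Fintype.card_fun, Fintype.card_bool,
          Fintype.card_fin]
        refine le_trans ?_ hW
        calc 2 ^ i * Fintype.card κ * X = 2 ^ i * Fintype.card κ * 1 * X := by ring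
          _ ≤ 2 ^ K * Fintype.card κ * θ ^ K * X := by
            gcongr
            · norm_num
            · omega
            · exact Nat.one_le_pow _ _ hθ
      have hne : (univ ×ˢ univ : Finset ((Fin i → Bool) × κ)).Nonempty :=
        ⟨(fun _ => true, g 0 0), by simp⟩
      obtain ⟨⟨e₀, a₀⟩, -, hfib⟩ := exists_le_card_fiber_of_mul_le_card_of_maps_to
        (f := fun v => (f v, a v)) (s := W) (t := univ ×ˢ univ) (n := X)
        (fun v _ => by simp) hne hcard
      obtain ⟨y, hy, hy2⟩ := hnd _ (filter_subset _ _) (L e₀) (hLW _) hfib (hLX _) a₀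
      rw [mem_filter, Prod.mk.injEq] at hy
      obtain ⟨hy0, hye, hya⟩ := hy
      have h3 := hfa y hy0
      rw [hye, hya] at h3
      have h4 := dom_of (hθX.trans (hLX _)) h3
      omega
    obtain ⟨v, hv, hab⟩ := hex
    choose α β hαβ hα hβ using hab
    refine ⟨Fin.cons v x, fun e => nb g (if e 0 then α (Fin.tail e) else β (Fin.tail e)) v
      (L (Fin.tail e)), ?_, ?_, ?_, ?_, ?_⟩
    · intro j
      refine Fin.cases ?_ (fun j => ?_) j
      · simp only [Fin.cons_zero]
        exact hv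
      · simp only [Fin.cons_succ]
        exact hxW j
    · intro e
      exact nb_subset.trans (hLW _)
    · intro e
      have h1 : (L (Fin.tail e)).card ≤ θ * (nb g (if e 0 then α (Fin.tail e) else
          β (Fin.tail e)) v (L (Fin.tail e))).card := by
        split_ifs
        · exact hα _
        · exact hβ _
      have h2 := (hLc (Fin.tail e)).trans h1
      rw [show K - i = K - (i + 1) + 1 by omega, pow_succ,
        show θ ^ (K - (i + 1)) * θ * X = θ * (θ ^ (K - (i + 1)) * X) by ring] at h2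
      exact Nat.le_of_mul_le_mul_left h2 (by omega)
    · intro e y hy j
      refine Fin.cases ?_ (fun j => ?_) j
      · simp only [Fin.cons_zero]
        exact (mem_nb.1 hy).2.1
      · simp only [Fin.cons_succ]
        exact hLx _ y (mem_nb.1 hy).1 j
    · intro e e' he y hy y' hy'
      by_cases ht : Fin.tail e = Fin.tail e'
      · refine ⟨0, ?_⟩
        simp only [Fin.cons_zero]
        rw [(mem_nb.1 hy).2.2, (mem_nb.1 hy').2.2, ht]
        have h0 : e 0 ≠ e' 0 := by
          intro h0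
          apply he
          rw [← Fin.cons_self_tail e, ← Fin.cons_self_tail e', h0, ht]
        have h7 := hαβ (Fin.tail e')
        revert h0
        generalize e 0 = b
        generalize e' 0 = b'
        cases b <;> cases b'
        · intro h; exact absurd rfl h
        · intro _ h2
          exact absurd h2.symm h7
        · intro _ h2
          exact absurd h2 h7
        · intro h; exact absurd rfl h
      · obtain ⟨j, hj⟩ := hLd _ _ ht y (mem_nb.1 hy).1 y' (mem_nb.1 hy').1
        refine ⟨j.succ, ?_⟩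
        simp only [Fin.cons_succ]
        exact hj

theorem sum_choose_le (n m : ℕ) : ∑ k ∈ Iic m, n.choose k ≤ (n + 1) ^ m := by
  induction m with
  | zero =>
    have h0 : (Iic 0 : Finset ℕ) = {0} := by
      ext x
      simp
    rw [h0, sum_singleton]
    simp
  | succ m ih =>
    have h1 : (Iic (m + 1) : Finset ℕ) = insert (m + 1) (Iic m) := by
      ext x
      simp only [mem_Iic, mem_insert]
      omega
    rw [h1, sum_insert (by simp), pow_succ]
    have h2 : n.choose (m + 1) ≤ n ^ (m + 1) := Nat.choose_le_pow n (m + 1)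
    have h3 : n ^ (m + 1) ≤ (n + 1) ^ m * n := by
      rw [pow_succ]
      exact Nat.mul_le_mul_right _ (Nat.pow_le_pow_left (by omega) _)
    calc n.choose (m + 1) + ∑ k ∈ Iic m, n.choose k ≤ (n + 1) ^ m * n + (n + 1) ^ m :=
          Nat.add_le_add (h2.trans h3) ih
      _ = (n + 1) ^ m * (n + 1) := by ring

/-- Small VC-dimension: dominating pairs. -/
theorem dom_of_vc [Fintype κ] (g : ℕ → ℕ → κ) {θ k d : ℕ} (hθ : 1 ≤ θ) (U : Finset ℕ)
    (hvc : ∀ (a : κ), ∀ Z ⊆ U, (∀ T ⊆ Z, ∃ y ∈ U, ∀ x ∈ Z, (x ≠ y ∧ g x y = a) ↔ x ∈ T) →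
      Z.card ≤ d) (hk : (k + 1) ^ (d * Fintype.card κ) < 2 ^ k) :
    ∀ X, θ ≤ X → ∀ W ⊆ U, 2 ^ k * Fintype.card κ * θ ^ k * X ≤ W.card →
      ∃ A ⊆ W, ∃ B ⊆ W, X ≤ A.card ∧ X ≤ B.card ∧
        ∃ a : κ, ∀ x ∈ A, θ * (B \ nb g a x B).card ≤ Fintype.card κ * B.card := by
  classical
  intro X hX W hWU hW
  by_contra hcon
  push Not at hcon
  obtain ⟨x, L, hxW, hLW, hLc, hLx, hLd⟩ := split g hθ hX hcon hW k le_rfl
  have hne : ∀ e, ∃ y, y ∈ L e := by
    intro e
    have h1 := hLc e
    rw [Nat.sub_self, pow_zero, one_mul] at h1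
    exact card_pos.1 (by omega)
  choose y hy using hne
  let T : κ → (Fin k → Bool) → Finset (Fin k) := fun a e => univ.filter fun j => g (x j) (y e) = a
  have hT : ∀ a e j, j ∈ T a e ↔ g (x j) (y e) = a := by
    intro a e j
    simp [T]
  let 𝒜 : κ → Finset (Finset (Fin k)) := fun a => univ.image (T a)
  have hA : ∀ a, (𝒜 a).card ≤ (k + 1) ^ d := by
    intro a
    have hvd : (𝒜 a).vcDim ≤ d := by
      unfold Finset.vcDim
      apply Finset.sup_le
      intro J hJ
      rw [mem_shatterer] at hJ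
      have hinj : ∀ j ∈ J, ∀ j' ∈ J, x j = x j' → j = j' := by
        intro j hj j' hj' hjj
        by_contra hne
        obtain ⟨u, hu, hJu⟩ := hJ (singleton_subset_iff.2 hj)
        obtain ⟨e, -, rfl⟩ := mem_image.1 hu
        have h1 : j ∈ T a e := by
          have : j ∈ J ∩ T a e := by rw [hJu]; exact mem_singleton_self j
          exact (mem_inter.1 this).2
        rw [hT, hjj, ← hT] at h1
        have h2 : j' ∈ J ∩ T a e := mem_inter.2 ⟨hj', h1⟩
        rw [hJu, mem_singleton] at h2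
        exact hne h2.symm
      have hZ := hvc a (J.image x) (by
        intro z hz
        obtain ⟨j, -, rfl⟩ := mem_image.1 hz
        exact hWU (hxW j)) (by
        intro S hS
        obtain ⟨u, hu, hJu⟩ := hJ (filter_subset (fun j => x j ∈ S) J)
        obtain ⟨e, -, rfl⟩ := mem_image.1 hu
        refine ⟨y e, hWU (hLW e (hy e)), ?_⟩
        intro z hz
        obtain ⟨j, hj, rfl⟩ := mem_image.1 hz
        have h1 : j ∈ J ∩ T a e ↔ x j ∈ S := by
          rw [hJu, mem_filter]
          exact ⟨fun h => h.2, fun h => ⟨hj, h⟩⟩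
        rw [← h1, mem_inter, hT]
        exact ⟨fun h => ⟨hj, h.2⟩, fun h => ⟨(hLx e _ (hy e) j).symm, h.2⟩⟩)
      rwa [card_image_of_injOn (fun j hj j' hj' h => hinj j hj j' hj' h)] at hZ
    calc (𝒜 a).card ≤ (𝒜 a).shatterer.card := card_le_card_shatterer _
      _ ≤ ∑ i ∈ Iic (𝒜 a).vcDim, (Fintype.card (Fin k)).choose i := card_shatterer_le_sum_vcDim
      _ ≤ (k + 1) ^ (𝒜 a).vcDim := by
          rw [Fintype.card_fin]
          exact sum_choose_le _ _
      _ ≤ (k + 1) ^ d := Nat.pow_le_pow_right (by omega) hvd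
  have hinj : Function.Injective fun e : Fin k → Bool => fun a => T a e := by
    intro e e' hee
    by_contra hne
    obtain ⟨j, hj⟩ := hLd e e' hne _ (hy e) _ (hy e')
    apply hj
    have h1 : j ∈ T (g (x j) (y e)) e := (hT _ _ _).2 rfl
    have h2 : T (g (x j) (y e)) e = T (g (x j) (y e)) e' := congrFun hee _
    rw [h2, hT] at h1
    exact h1.symm
  have h3 : (univ.image fun e : Fin k → Bool => fun a => T a e) ⊆ Fintype.piFinset 𝒜 := by
    intro F hF
    obtain ⟨e, -, rfl⟩ := mem_image.1 hF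
    rw [Fintype.mem_piFinset]
    intro a
    exact mem_image_of_mem _ (mem_univ e)
  have h4 := card_le_card h3
  rw [card_image_of_injective _ hinj, card_univ, Fintype.card_fun, Fintype.card_bool,
    Fintype.card_fin, Fintype.card_piFinset] at h4
  have h5 : ∏ a, (𝒜 a).card ≤ ∏ _a : κ, (k + 1) ^ d := prod_le_prod' fun a _ => hA a
  rw [prod_const, card_univ, ← pow_mul] at h5
  omega

/-- The number of vertices needed for splitting. -/
theorem split_size {m : ℕ} (hm : 1 ≤ m) :
    (8 * m * (Nat.log 2 m + 1) + 1) ^ m < 2 ^ (8 * m * (Nat.log 2 m + 1)) := by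
  set l := Nat.log 2 m with hl
  have h1 : m < 2 ^ (l + 1) := Nat.lt_pow_succ_log_self (by norm_num) m
  have h2 : l + 1 ≤ 2 ^ l := Nat.lt_two_pow_self
  have h3 : 8 * m * (l + 1) + 1 ≤ 2 ^ (2 * l + 4) := by
    calc 8 * m * (l + 1) + 1 ≤ 8 * m * (l + 1) + 8 * (l + 1) := by omega
      _ = 8 * ((m + 1) * (l + 1)) := by ring
      _ ≤ 8 * (2 ^ (l + 1) * 2 ^ l) := by gcongr; omega
      _ = 2 ^ (2 * l + 4) := by ring
  calc (8 * m * (l + 1) + 1) ^ m ≤ (2 ^ (2 * l + 4)) ^ m := Nat.pow_le_pow_left h3 _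
    _ = 2 ^ ((2 * l + 4) * m) := by rw [← pow_mul]
    _ < 2 ^ (8 * m * (l + 1)) := by
        apply Nat.pow_lt_pow_right (by norm_num)
        nlinarith

end Pool.Agent.T3h47.PC
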