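import Pool.Agent.T3h47.PC.Defs

/-!
# Counting tuples by patterns
-/

set_option autoImplicit false

namespace Pool.Agent.T3h47.PC

open Finset

variable {κ : Type}

theorem patterns_finite [Finite κ] (r : ℕ) (c : Finset ℕ → κ) (N k : ℕ) :
    (patterns r c N k).Finite := Set.toFinite _

theorem patterns_mono {r : ℕ} {c : Finset ℕ → κ} {N N' k : ℕ} (h : N ≤ N') :
    patterns r c N k ⊆ patterns r c N' k := by
  rintro p ⟨φ, h1, h2, h3⟩
  exact ⟨φ, h1, fun i => (h2 i).trans_le h, h3⟩

theorem patternCount_mono [Finite κ] {r : ℕ} {c : Finset ℕ → κ} {N N' k : ℕ} (h : N ≤ N') :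
    patternCount r c N k ≤ patternCount r c N' k :=
  Set.ncard_le_ncard (patterns_mono h) (patterns_finite _ _ _ _)

/-- the colours of the sets of entries of a tuple -/
def tp {ι : Type} [DecidableEq ι] (r : ℕ) (c : Finset ℕ → κ) (u : ι → ℕ) (A : Finset ι) :
    Option κ :=
  if (A.image u).card = r then some (c (A.image u)) else none

/-- The entries of a tuple and its place in a set of `k` vertices. -/
theorem exists_place {ι : Type} [Fintype ι] [DecidableEq ι] (u : ι → ℕ) {N k : ℕ}
    (hu : ∀ i, u i < N) (hk : Fintype.card ι ≤ k ∨ N ≤ k) (hkN : k ≤ N) :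
    ∃ (φ : Fin k → ℕ) (p : ι → Fin k), StrictMono φ ∧ (∀ i, φ i < N) ∧ ∀ i, φ (p i) = u i := by
  have h1 : univ.image u ⊆ range N := by
    intro v hv
    obtain ⟨i, -, rfl⟩ := mem_image.1 hv
    exact mem_range.2 (hu i)
  have h2 : (univ.image u).card ≤ k := by
    rcases hk with hk | hk
    · exact card_image_le.trans (by rw [card_univ]; exact hk)
    · exact (card_le_card h1).trans (by rw [card_range]; exact hk)
  obtain ⟨K, hK1, hK2, hKc⟩ := exists_subsuperset_card_eq h1 h2 (by rw [card_range]; exact hkN)
  refine ⟨K.orderEmbOfFin hKc, fun i => ?_, (K.orderEmbOfFin hKc).strictMono, fun i => ?_,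
    fun i => ?_⟩
  · exact (K.orderIsoOfFin hKc).symm ⟨u i, hK1 (mem_image_of_mem _ (mem_univ i))⟩
  · exact mem_range.1 (hK2 (orderEmbOfFin_mem K hKc i))
  · rw [← coe_orderIsoOfFin_apply, OrderIso.apply_symm_apply]

theorem tp_eq {ι : Type} [DecidableEq ι] {r k : ℕ} {c : Finset ℕ → κ}
    {φ : Fin k → ℕ} (hφ : StrictMono φ) {p : ι → Fin k} {u : ι → ℕ} (h : ∀ i, φ (p i) = u i)
    (A : Finset ι) : tp r c u A = pattern r c φ (A.image p) := by
  have h1 : A.image u = (A.image p).image φ := by
    rw [image_image]
    apply image_congr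
    intro i _
    exact (h i).symm
  unfold tp pattern
  rw [h1, card_image_of_injective _ hφ.injective]

/-- **Counting.** A family of tuples with different colours of the sets of entries. -/
theorem tuples_le [Finite κ] {ι E : Type} [Fintype ι] [DecidableEq ι] [Fintype E] {r : ℕ}
    (c : Finset ℕ → κ) {N k : ℕ} (hk : Fintype.card ι ≤ k ∨ N ≤ k) (hkN : k ≤ N) (u : E → ι → ℕ)
    (hu : ∀ e i, u e i < N) (hinj : ∀ e e', tp r c (u e) = tp r c (u e') → e = e') :
    Fintype.card E ≤ k ^ Fintype.card ι * patternCount r c N k := by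
  classical
  choose φ p h1 h2 h3 using fun e => exists_place (u e) (hu e) hk hkN
  let f : E → (ι → Fin k) × (patterns r c N k) :=
    fun e => (p e, ⟨pattern r c (φ e), φ e, h1 e, h2 e, rfl⟩)
  have hf : Function.Injective f := by
    intro e e' he
    have he1 : p e = p e' := congrArg Prod.fst he
    have he2 : pattern r c (φ e) = pattern r c (φ e') := congrArg (fun z => z.2.1) he
    apply hinj
    funext A
    rw [tp_eq (h1 e) (h3 e), tp_eq (h1 e') (h3 e'), he1, he2]
  have := patterns_finite r c N k
  have hfin : Fintype (patterns r c N k) := this.fintype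
  have h4 := Fintype.card_le_of_injective f hf
  rw [Fintype.card_prod, Fintype.card_fun, Fintype.card_fin] at h4
  refine h4.trans (le_of_eq ?_)
  congr 1
  rw [patternCount, ← Nat.card_coe_set_eq, Nat.card_eq_fintype_card]

/-- Shattered boxes yield many patterns. -/
theorem box_le [Finite κ] {r j d : ℕ} (hj : j ≤ r) {c : Finset ℕ → κ} {a : κ} {N k : ℕ}
    (hk : r * d ≤ k ∨ N ≤ k) (hkN : k ≤ N) (h : BoxShattered r j d c a N) :
    2 ^ (d ^ j * d) ≤ k ^ (r * d) * patternCount r c N k := by
  classical
  obtain ⟨x, hx, hT⟩ := h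
  choose B hB1 hB2 hB3 using hT
  -- the vertices of the sets `B T`
  have hbe : ∀ T : Finset (Fin j → Fin d), ∃ b : Fin (r - j) → ℕ, univ.image b = B T := by
    intro T
    refine ⟨(B T).orderEmbOfFin (hB2 T), ?_⟩
    rw [← coe_inj, coe_image, coe_univ, Set.image_univ, range_orderEmbOfFin]
  choose b hb using hbe
  let ι := (Fin j × Fin d) ⊕ (Fin d × Fin (r - j))
  let u : (Fin d → Finset (Fin j → Fin d)) → ι → ℕ := fun e =>
    Sum.elim (fun q => x q.1 q.2) (fun q => b (e q.1) q.2)
  have hι : Fintype.card ι = r * d := by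
    simp only [ι, Fintype.card_sum, Fintype.card_prod, Fintype.card_fin]
    obtain ⟨m, rfl⟩ : ∃ m, r = j + m := ⟨r - j, by omega⟩
    rw [Nat.add_sub_cancel_left]
    ring
  have hE : Fintype.card (Fin d → Finset (Fin j → Fin d)) = 2 ^ (d ^ j * d) := by
    rw [Fintype.card_fun, Fintype.card_finset, Fintype.card_fun, Fintype.card_fin, Fintype.card_fin,
      ← pow_mul]
  have h1 := tuples_le (r := r) (E := Fin d → Finset (Fin j → Fin d)) c (N := N) (k := k)
    (ι := ι) (by rw [hι]; exact hk) hkN u (by
      intro e i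
      rcases i with i | i
      · exact hx _ _
      · have : b (e i.1) i.2 ∈ B (e i.1) := by
          rw [← hb]
          exact mem_image_of_mem _ (mem_univ _)
        exact mem_range.1 (hB1 _ this)) (by
      intro e e' he
      funext l
      ext t
      -- the set of slots
      let A : Finset ι := (univ.image fun i : Fin j => Sum.inl (i, t i)) ∪
        (univ.image fun m : Fin (r - j) => Sum.inr (l, m))
      have hA : ∀ e : Fin d → Finset (Fin j → Fin d), A.image (u e) =
          (univ.image fun i => x i (t i)) ∪ B (e l) := by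
        intro e
        simp only [A]
        rw [image_union, image_image, image_image, ← hb (e l)]
        rfl
      have key : ∀ e : Fin d → Finset (Fin j → Fin d), t ∈ e l ↔ tp r c (u e) A = some a := by
        intro e
        rw [← hB3 (e l) t]
        unfold tp
        rw [hA]
        by_cases hc : ((univ.image fun i => x i (t i)) ∪ B (e l)).card = r
        · simp [hc]
        · simp [hc]
      rw [key e, key e', he])
  rw [hE, hι] at h1
  exact h1

end Pool.Agent.T3h47.PC
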