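import Mathlib

/-!
# Patterns and higher VC-dimension: definitions
-/

set_option autoImplicit false

namespace Pool.Agent.T3h47.PC

open Finset

variable {κ : Type}

/-- The pattern of the colouring `c` of the `r`-subsets on the vertices `φ 0 < … < φ (k - 1)`: the
`r`-subset `B` of `{0, …, k - 1}` gets the colour of `{φ i | i ∈ B}`. -/
def pattern (r : ℕ) (c : Finset ℕ → κ) {k : ℕ} (φ : Fin k → ℕ) (B : Finset (Fin k)) : Option κ :=
  if B.card = r then some (c (B.image φ)) else none

/-- The patterns of the colouring `c` of the `r`-subsets of `{0, …, N - 1}` on `k` vertices. -/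
def patterns (r : ℕ) (c : Finset ℕ → κ) (N k : ℕ) : Set (Finset (Fin k) → Option κ) :=
  {p | ∃ φ : Fin k → ℕ, StrictMono φ ∧ (∀ i, φ i < N) ∧ p = pattern r c φ}

/-- The number of patterns on `k` vertices. -/
noncomputable def patternCount (r : ℕ) (c : Finset ℕ → κ) (N k : ℕ) : ℕ :=
  (patterns r c N k).ncard

/-- The colouring `c` of the `r`-subsets of `{0, …, N - 1}` has no homogeneous set of size `n`. -/
def NoHom (r : ℕ) (c : Finset ℕ → κ) (N n : ℕ) : Prop :=
  ∀ S ⊆ range N, S.card = n → ∀ b : κ, ∃ A ⊆ S, A.card = r ∧ c A ≠ b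

/-- The colour `a` shatters a box `X 0 × … × X (j - 1)`, where `X i = {x i 0, …, x i (d - 1)}`: for
every subset `T` of the box there is a set `B` of `r - j` vertices such that the points `t` of the
box which together with `B` form an `r`-subset of colour `a` are those of `T`. -/
def BoxShattered (r j d : ℕ) (c : Finset ℕ → κ) (a : κ) (N : ℕ) : Prop :=
  ∃ x : Fin j → Fin d → ℕ, (∀ i u, x i u < N) ∧ ∀ T : Finset (Fin j → Fin d),
    ∃ B ⊆ range N, B.card = r - j ∧ ∀ t : Fin j → Fin d,
      ((((univ.image fun i => x i (t i)) ∪ B).card = r ∧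
        c ((univ.image fun i => x i (t i)) ∪ B) = a) ↔ t ∈ T)

/-- The `VC_j`-dimension (Shelah; Chernikov, Palacin, Takeuchi) of each colour is at most `D`. -/
def VCLe (r j D : ℕ) (c : Finset ℕ → κ) (N : ℕ) : Prop :=
  ∀ (d : ℕ) (a : κ), BoxShattered r j d c a N → d ≤ D

end Pool.Agent.T3h47.PC
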