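import Pool.Agent.T3h47.PC.Step
import Pool.Agent.T3h47.CD.Grow

/-!
# The stepped-up colourings are local
-/

set_option autoImplicit false

namespace Pool.Agent.T3h47.PC

open Finset Pool.Agent.T3h47.CD Pool.Agent.N584.TI

variable {κ : Type}

/-- The colouring, made constant on sets which are not `t`-subsets. -/
noncomputable def nrm (t : ℕ) (κ₀ : κ) (c : Finset ℕ → κ) (A : Finset ℕ) : κ :=
  if A.card = t then c A else κ₀

theorem lev_image {c : Finset ℕ → κ} {ι : Type} [DecidableEq ι] (I : Finset ι) (f : ι → ℕ) :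
    lev c (I.image fun i => (f i : ℝ)) = c (I.image f) := by
  unfold lev
  rw [image_image]
  congr 1
  apply image_congr
  intro i _
  simp

theorem nrm_eq {t d : ℕ} {κ₀ : κ} {c : Finset ℕ → κ} {ψ ψ' : Fin d → ℕ} (hψ : StrictMono ψ)
    (hψ' : StrictMono ψ')
    (h : ∀ A : Finset (Fin d), A.card = t → c (A.image ψ) = c (A.image ψ'))
    (A : Finset (Fin d)) : nrm t κ₀ c (A.image ψ) = nrm t κ₀ c (A.image ψ') := by
  unfold nrm
  rw [card_image_of_injective _ hψ.injective, card_image_of_injective _ hψ'.injective]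
  split_ifs with hA
  · exact h A hA
  · rfl

theorem cmp_iff {k d : ℕ} {x y : Fin k → ℕ} {ψ ψ' : Fin d → ℕ} (hψ : StrictMono ψ)
    (hψ' : StrictMono ψ')
    (h : ∀ i j, i < j → ∃ e, del (x i) (x j) = ψ e ∧ del (y i) (y j) = ψ' e) {i j i' j' : Fin k}
    (hij : i < j) (hij' : i' < j') :
    (ρD (x i) (x j) < ρD (x i') (x j')) = (ρD (y i) (y j) < ρD (y i') (y j')) := by
  obtain ⟨e, h1, h2⟩ := h i j hij
  obtain ⟨e', h1', h2'⟩ := h i' j' hij'
  unfold ρD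
  rw [h1, h2, h1', h2', Nat.cast_lt, Nat.cast_lt, hψ.lt_iff_lt, hψ'.lt_iff_lt]

theorem img_eq {k d t l : ℕ} {κ₀ : κ} {c : Finset ℕ → κ} {x y : Fin k → ℕ} {ψ ψ' : Fin d → ℕ}
    (hψ : StrictMono ψ) (hψ' : StrictMono ψ')
    (h : ∀ i j, i < j → ∃ e, del (x i) (x j) = ψ e ∧ del (y i) (y j) = ψ' e)
    (hc : ∀ A : Finset (Fin d), A.card = t → c (A.image ψ) = c (A.image ψ'))
    (a b : Fin l → Fin k) (hab : ∀ i, a i < b i) :
    lev (nrm t κ₀ c) (univ.image fun i => ρD (x (a i)) (x (b i))) =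
      lev (nrm t κ₀ c) (univ.image fun i => ρD (y (a i)) (y (b i))) := by
  choose e h1 h2 using fun i => h (a i) (b i) (hab i)
  have e1 : (univ.image fun i => del (x (a i)) (x (b i))) = (univ.image e).image ψ := by
    rw [image_image]
    apply image_congr
    intro i _
    exact h1 i
  have e2 : (univ.image fun i => del (y (a i)) (y (b i))) = (univ.image e).image ψ' := by
    rw [image_image]
    apply image_congr
    intro i _
    exact h2 i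
  have e3 := lev_image (c := nrm t κ₀ c) univ fun i => del (x (a i)) (x (b i))
  have e4 := lev_image (c := nrm t κ₀ c) univ fun i => del (y (a i)) (y (b i))
  unfold ρD
  rw [e3, e4, e1, e2]
  exact nrm_eq hψ hψ' hc _

theorem local_stepF (κ₀ κ₁ : κ) (c : Finset ℕ → κ) (s : ℕ) :
    Local (s + 3) c (ofTup (s + 4) κ₀ (stepF ρD κ₀ κ₁ (lev (nrm (s + 3) κ₀ c)) s)) := by
  intro x y hx hy d ψ ψ' hψ hψ' h hc
  have h01 : (0 : Fin (s + 4)) < 1 := by
    rw [Fin.lt_def]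
    show 0 % (s + 4) < 1 % (s + 4)
    rw [Nat.mod_eq_of_lt, Nat.mod_eq_of_lt] <;> omega
  have h12 : (1 : Fin (s + 4)) < 2 := by
    rw [Fin.lt_def]
    show 1 % (s + 4) < 2 % (s + 4)
    rw [Nat.mod_eq_of_lt, Nat.mod_eq_of_lt] <;> omega
  have h23 : (2 : Fin (s + 4)) < 3 := by
    rw [Fin.lt_def]
    show 2 % (s + 4) < 3 % (s + 4)
    rw [Nat.mod_eq_of_lt, Nat.mod_eq_of_lt] <;> omega
  have e1 := img_eq (κ₀ := κ₀) hψ hψ' h hc (fun i : Fin (s + 3) => i.castSucc)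
    (fun _ => Fin.last _) (fun i => Fin.castSucc_lt_last i)
  have e2 := img_eq (κ₀ := κ₀) hψ hψ' h hc (fun _ : Fin (s + 3) => 0)
    (fun i => i.succ) (fun i => Fin.succ_pos i)
  have e3 := ofTup_image (κ₀ := κ₀) (F := stepF ρD κ₀ κ₁ (lev (nrm (s + 3) κ₀ c)) s) hx
  have e4 := ofTup_image (κ₀ := κ₀) (F := stepF ρD κ₀ κ₁ (lev (nrm (s + 3) κ₀ c)) s) hy
  refine e3.trans (Eq.trans ?_ e4.symm)
  unfold stepF
  rw [e1, e2]
  simp only [cmp_iff hψ hψ' h h01 h12, cmp_iff hψ hψ' h h23 h12, cmp_iff hψ hψ' h h12 h01,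
    cmp_iff hψ hψ' h h12 h23, cmp_iff hψ hψ' h h23 h01]

theorem two_eq {t d : ℕ} {κ₀ : κ} {c : Finset ℕ → κ} {ψ ψ' : Fin d → ℕ} (hψ : StrictMono ψ)
    (hψ' : StrictMono ψ')
    (hc : ∀ A : Finset (Fin d), A.card = t → c (A.image ψ) = c (A.image ψ')) (e e' : Fin d) :
    lev (nrm t κ₀ c) {(ψ e : ℝ), (ψ e' : ℝ)} = lev (nrm t κ₀ c) {(ψ' e : ℝ), (ψ' e' : ℝ)} := by
  have h1 := lev_image (c := nrm t κ₀ c) {e, e'} ψ
  have h2 := lev_image (c := nrm t κ₀ c) {e, e'} ψ'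
  rw [nrm_eq hψ hψ' hc, ← h2] at h1
  simpa using h1

theorem local_pairF (κ₀ : κ) (p₀ : Bool × κ) (c : Finset ℕ → κ) :
    Local 2 c (ofTup 3 p₀ (pairF ρD (lev (nrm 2 κ₀ c)))) := by
  intro x y hx hy d ψ ψ' hψ hψ' h hc
  have e3 := ofTup_image (κ₀ := p₀) (F := pairF ρD (lev (nrm 2 κ₀ c))) hx
  have e4 := ofTup_image (κ₀ := p₀) (F := pairF ρD (lev (nrm 2 κ₀ c))) hy
  refine e3.trans (Eq.trans ?_ e4.symm)
  obtain ⟨a, ha, ha'⟩ := h 0 1 (by decide)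
  obtain ⟨b, hb, hb'⟩ := h 1 2 (by decide)
  obtain ⟨g, hg, hg'⟩ := h 0 2 (by decide)
  unfold pairF ρD
  rw [ha, ha', hb, hb', hg, hg', two_eq hψ hψ' hc, two_eq hψ hψ' hc]
  simp only [Nat.cast_le, hψ.le_iff_le, hψ'.le_iff_le]

end Pool.Agent.T3h47.PC
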