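import Pool.Agent.T3h47.PC.Count
import Pool.Agent.T3h47.PC.Cog
import Pool.Agent.Y424.LK.QMain

/-!
# Many patterns
-/

set_option autoImplicit false

namespace Pool.Agent.T3h47.PC

open Finset Pool.Agent.Y424.LK

variable {κ : Type}

theorem exists_enum {S : Finset ℕ} {s : ℕ} (h : S.card = s) :
    ∃ f : Fin s → ℕ, univ.image f = S ∧ Function.Injective f := by
  refine ⟨S.orderEmbOfFin h, ?_, (S.orderEmbOfFin h).injective⟩
  rw [← coe_inj, coe_image, coe_univ, Set.image_univ, range_orderEmbOfFin]

theorem tp_pair {ι : Type} [DecidableEq ι] {s : ℕ} {c : Finset ℕ → κ} {u : ι → ℕ} {A : Finset ι}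
    {x y : ℕ} {S : Finset ℕ} (hA : A.image u = insert x (insert y S)) (hxy : x ≠ y) (hx : x ∉ S)
    (hy : y ∉ S) (hS : S.card = s) : tp (s + 2) c u A = some (c (insert x (insert y S))) := by
  unfold tp
  rw [hA, if_pos]
  rw [card_insert_of_notMem, card_insert_of_notMem hy, hS]
  rw [mem_insert]
  push Not
  exact ⟨hxy, hx⟩

theorem pat_of_many [Fintype κ] {s : ℕ} {c : Finset ℕ → κ} {N k : ℕ} {U S : Finset ℕ}
    (hU : U ⊆ range N) (hS : S ⊆ range N) (hSc : S.card = s)
    (hlt : ∀ u ∈ U, ∀ w ∈ S, u < w)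
    (h : ManyPat (fun x y => c (insert x (insert y S))) k U) (hkN : k + s ≤ N) :
    2 ^ (k.choose 2) ≤ (k + s) ^ (k + s) * patternCount (s + 2) c N (k + s) := by
  classical
  obtain ⟨u, h1, h2, h3⟩ := h
  obtain ⟨f, hf, hfi⟩ := exists_enum hSc
  have hfS : ∀ i, f i ∈ S := fun i => by
    rw [← hf]
    exact mem_image_of_mem _ (mem_univ i)
  have hns : ∀ x ∈ U, x ∉ S := fun x hx hxS => lt_irrefl _ (hlt x hx x hxS)
  have h4 := tuples_le (r := s + 2) (E := Fin (2 ^ (k.choose 2))) c (N := N) (k := k + s)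
    (ι := Fin k ⊕ Fin s) (Or.inl (by simp)) hkN (fun e => Sum.elim (u e) f) (by
      rintro e (i | i)
      · exact mem_range.1 (hU (h1 e i))
      · exact mem_range.1 (hS (hfS i))) (by
      intro e e' he
      apply h3
      intro i j hij
      have hA : ∀ e, (insert (Sum.inl i) (insert (Sum.inl j) (univ.image Sum.inr)) :
          Finset (Fin k ⊕ Fin s)).image (Sum.elim (u e) f) =
          insert (u e i) (insert (u e j) S) := by
        intro e
        rw [image_insert, image_insert, image_image, ← hf]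
        rfl
      have h5 := congrFun he (insert (Sum.inl i) (insert (Sum.inl j) (univ.image Sum.inr)))
      rw [tp_pair (hA e) (h2 e i j hij) (hns _ (h1 e i)) (hns _ (h1 e j)) hSc,
        tp_pair (hA e') (h2 e' i j hij) (hns _ (h1 e' i)) (hns _ (h1 e' j)) hSc] at h5
      exact Option.some.inj h5)
  simpa using h4

theorem pat_of_shattered [Fintype κ] {s : ℕ} {c : Finset ℕ → κ} {N d : ℕ} {U S Z : Finset ℕ}
    (hU : U ⊆ range N) (hS : S ⊆ range N) (hSc : S.card = s)
    (hlt : ∀ u ∈ U, ∀ w ∈ S, u < w) {a : κ} (hZU : Z ⊆ U)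
    (h : ShatteredBy c a {A | ∃ v ∈ U, A = insert v S} Z) (hd : d ≤ Z.card)
    (hkN : 2 * d + s ≤ N) :
    2 ^ (d ^ 2) ≤ (2 * d + s) ^ (2 * d + s) * patternCount (s + 2) c N (2 * d + s) := by
  classical
  obtain ⟨Z', hZ', hZc⟩ := exists_subset_card_eq hd
  obtain ⟨z, hz, hzi⟩ := exists_enum hZc
  obtain ⟨f, hf, hfi⟩ := exists_enum hSc
  have hfS : ∀ i, f i ∈ S := fun i => by
    rw [← hf]
    exact mem_image_of_mem _ (mem_univ i)
  have hzZ : ∀ i, z i ∈ Z := fun i => by
    apply hZ'
    rw [← hz]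
    exact mem_image_of_mem _ (mem_univ i)
  have hns : ∀ x ∈ U, x ∉ S := fun x hx hxS => lt_irrefl _ (hlt x hx x hxS)
  have hex : ∀ T : Finset (Fin d), ∃ v ∈ U, ∀ t : Fin d,
      ((z t ∉ insert v S ∧ c (insert (z t) (insert v S)) = a) ↔ t ∈ T) := by
    intro T
    obtain ⟨A, ⟨v, hv, rfl⟩, hA⟩ := h (T.image z) (by
      intro x hx
      obtain ⟨i, -, rfl⟩ := mem_image.1 hx
      exact hzZ i)
    refine ⟨v, hv, fun t => ?_⟩
    rw [hA (z t) (hzZ t), mem_image]
    constructor
    · rintro ⟨t', ht', e⟩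
      rwa [← hzi e]
    · intro ht
      exact ⟨t, ht, rfl⟩
  choose v hvU hv using hex
  have h4 := tuples_le (r := s + 2) (E := Fin d → Finset (Fin d)) c (N := N) (k := 2 * d + s)
    (ι := (Fin d ⊕ Fin d) ⊕ Fin s) (Or.inl (by simp [two_mul])) hkN
    (fun e => Sum.elim (Sum.elim z fun l => v (e l)) f) (by
      rintro e ((i | i) | i)
      · exact mem_range.1 (hU (hZU (hzZ i)))
      · exact mem_range.1 (hU (hvU _))
      · exact mem_range.1 (hS (hfS i))) (by
      intro e e' he
      funext l
      ext t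
      have hA : ∀ e : Fin d → Finset (Fin d), (insert (Sum.inl (Sum.inl t))
          (insert (Sum.inl (Sum.inr l)) (univ.image Sum.inr)) :
          Finset ((Fin d ⊕ Fin d) ⊕ Fin s)).image (Sum.elim (Sum.elim z fun l => v (e l)) f) =
          insert (z t) (insert (v (e l)) S) := by
        intro e
        rw [image_insert, image_insert, image_image, ← hf]
        rfl
      have key : ∀ e : Fin d → Finset (Fin d), t ∈ e l ↔
          tp (s + 2) c (Sum.elim (Sum.elim z fun l => v (e l)) f)
            (insert (Sum.inl (Sum.inl t)) (insert (Sum.inl (Sum.inr l)) (univ.image Sum.inr))) =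
            some a := by
        intro e
        rw [← hv (e l) t]
        by_cases hne : z t = v (e l)
        · have h5 : ¬ (insert (z t) (insert (v (e l)) S)).card = s + 2 := by
            rw [hne, insert_idem, card_insert_of_notMem (hns _ (hvU _)), hSc]
            omega
          unfold tp
          rw [hA, if_neg h5]
          constructor
          · rintro ⟨h6, -⟩
            exact absurd (hne ▸ mem_insert_self _ _) h6
          · intro h6
            exact absurd h6 (by simp)
        · rw [tp_pair (hA e) hne (hns _ (hZU (hzZ t))) (hns _ (hvU _)) hSc]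
          constructor
          · rintro ⟨-, h6⟩
            rw [h6]
          · intro h6
            refine ⟨?_, Option.some.inj h6⟩
            rw [mem_insert]
            push Not
            exact ⟨hne, hns _ (hZU (hzZ t))⟩
      rw [key e, key e', he])
  have h5 : Fintype.card (Fin d → Finset (Fin d)) = 2 ^ (d ^ 2) := by
    rw [Fintype.card_fun, Fintype.card_finset, Fintype.card_fin, ← pow_mul, sq]
  have h6 : Fintype.card ((Fin d ⊕ Fin d) ⊕ Fin s) = 2 * d + s := by
    simp [two_mul]
  rw [h5, h6] at h4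
  exact h4

end Pool.Agent.T3h47.PC
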