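import Pool.Agent.T3h47.PC.LowAsy

/-!
# Small VC-dimension: the order of magnitude
-/

set_option autoImplicit false

namespace Pool.Agent.T3h47.PC

open Finset Pool.Agent.Y424.LK Pool.Agent.TH138.NF

theorem exists_hom_of_not_noHom {κ : Type} {r N n : ℕ} {c : Finset ℕ → κ}
    (h : ¬ NoHom r c N n) : ∃ H ⊆ range N, H.card = n ∧ ∃ b : κ, ∀ A ⊆ H, A.card = r → c A = b := by
  unfold NoHom at h
  push Not at h
  obtain ⟨S, hS, hSn, b, hb⟩ := h
  exact ⟨S, hS, hSn, b, hb⟩

theorem sharp : ∃ C : ℝ, 0 < C ∧ ∀ (κ : Type) [Fintype κ] (q : ℕ), Fintype.card κ = q →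
    ∀ (s N n d : ℕ) (η : ℝ), 2 ≤ n → 1 ≤ d → 0 < η → η ≤ 1 → (n : ℝ) ^ η ≤ d →
    tow (s + 1) (C * (q : ℝ) ^ 3 / η * (d * Real.log (2 + (n : ℝ) / d)) +
      q * ((s : ℝ) + 3) ^ 2) ≤ N →
    ∀ c : Finset ℕ → κ,
      (∀ (a : κ) (Z : Finset ℕ), Z ⊆ range N →
        ShatteredBy c a {A | A ⊆ range N ∧ A.card = s + 1} Z → Z.card ≤ d) →
      ¬ NoHom (s + 2) c N n := by
  obtain ⟨C₁, hC₁, hup⟩ := upperQ
  refine ⟨max (3 * C₁) 2000, by positivity, ?_⟩
  intro κ _ q hq s N n d η hn hd hη hη1 hnd hN c hvc hc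
  have hq1 : 1 ≤ q := by
    rw [← hq]
    exact Fintype.card_pos_iff.2 ⟨c ∅⟩
  have hq1r : (1 : ℝ) ≤ q := by exact_mod_cast hq1
  have hn' : (2 : ℝ) ≤ n := by exact_mod_cast hn
  have hd' : (1 : ℝ) ≤ d := by exact_mod_cast hd
  have hl2 := Real.log_two_gt_d9
  have hl2' := Real.log_two_lt_d9
  set Λ := Real.log (2 + (n : ℝ) / d) with hΛ
  have hΛ2 : 0.69 ≤ Λ := by
    have h1 : (0 : ℝ) ≤ (n : ℝ) / d := by positivity
    have h2 := Real.log_le_log (by norm_num) (show (2 : ℝ) ≤ 2 + (n : ℝ) / d by linarith)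
    rw [← hΛ] at h2
    linarith
  have hlogn : 0 < Real.log n := Real.log_pos (by linarith)
  have hC0 : 0 ≤ max (3 * C₁) 2000 * (q : ℝ) ^ 3 * (d * Λ) := by positivity
  have hη0 : max (3 * C₁) 2000 * (q : ℝ) ^ 3 * (d * Λ) ≤
      max (3 * C₁) 2000 * (q : ℝ) ^ 3 / η * (d * Λ) := by
    rw [div_mul_eq_mul_div, le_div_iff₀ hη]
    nlinarith
  by_cases hcase : (n : ℝ) ^ ((3 : ℝ) / 4) ≤ d
  · -- large `d`
    refine absurd (hup κ q hq s N n d hn hd ?_ c hvc) ?_
    · refine le_trans (tow_mono (s + 1) ?_) hN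
      have h1 : Real.sqrt (n * Real.log n) ≤ d := by
        refine le_trans ?_ hcase
        rw [Real.sqrt_le_left (by positivity), ← Real.rpow_natCast, ← Real.rpow_mul (by positivity)]
        have h2 : Real.log n ≤ (n : ℝ) ^ ((1 : ℝ) / 2) := by
          have h3 := Real.add_one_le_exp (Real.log n / 2 - 1)
          have h4 : (n : ℝ) ^ ((1 : ℝ) / 2) = Real.exp (Real.log n / 2) := by
            rw [Real.rpow_def_of_pos (by linarith)]
            congr 1
            ring
          have h5 : Real.exp (Real.log n / 2) = Real.exp (Real.log n / 2 - 1) * Real.exp 1 := by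
            rw [← Real.exp_add]
            congr 1
            ring
          have h6 := Real.exp_one_gt_d9
          rw [h4, h5]
          have h7 : 0 < Real.exp (Real.log n / 2 - 1) := Real.exp_pos _
          nlinarith
        calc (n : ℝ) * Real.log n ≤ n * (n : ℝ) ^ ((1 : ℝ) / 2) :=
              mul_le_mul_of_nonneg_left h2 (by linarith)
          _ = (n : ℝ) ^ ((3 : ℝ) / 4 * ((2 : ℕ) : ℝ)) := by
              conv_lhs => rw [← Real.rpow_one_add' (by linarith) (by norm_num)]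
              congr 1
              norm_num
      have h2 : C₁ * (q : ℝ) ^ 3 * (d * Λ + Real.sqrt (n * Real.log n)) ≤
          max (3 * C₁) 2000 * (q : ℝ) ^ 3 * (d * Λ) := by
        have h3 : (d : ℝ) * Λ + Real.sqrt (n * Real.log n) ≤ 3 * (d * Λ) := by nlinarith
        calc C₁ * (q : ℝ) ^ 3 * (d * Λ + Real.sqrt (n * Real.log n))
            ≤ C₁ * (q : ℝ) ^ 3 * (3 * (d * Λ)) := mul_le_mul_of_nonneg_left h3 (by positivity)
          _ = 3 * C₁ * ((q : ℝ) ^ 3 * (d * Λ)) := by ring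
          _ ≤ max (3 * C₁) 2000 * ((q : ℝ) ^ 3 * (d * Λ)) :=
              mul_le_mul_of_nonneg_right (le_max_left _ _) (by positivity)
          _ = _ := by ring
      linarith
    · push Not
      intro H hH hHn
      exact hc.homogeneous H hH hHn
  · -- small `d`
    push Not at hcase
    have hΛn : Real.log n ≤ 4 * Λ := by
      have h1 : (n : ℝ) ^ ((1 : ℝ) / 4) ≤ 2 + (n : ℝ) / d := by
        have h2 : (n : ℝ) ^ ((1 : ℝ) / 4) ≤ (n : ℝ) / d := by
          rw [le_div_iff₀ (by linarith)]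
          calc (n : ℝ) ^ ((1 : ℝ) / 4) * d ≤ (n : ℝ) ^ ((1 : ℝ) / 4) * (n : ℝ) ^ ((3 : ℝ) / 4) :=
                mul_le_mul_of_nonneg_left hcase.le (by positivity)
            _ = n := by
                rw [← Real.rpow_add (by linarith)]
                norm_num
        linarith
      have h3 := Real.log_le_log (by positivity) h1
      rw [Real.log_rpow (by linarith), ← hΛ] at h3
      linarith
    refine few_vc hd hn ?_ hvc hc
    rw [hq]
    set L := Nat.log 2 n + 1 with hL
    set l := Nat.log 2 (d * L) with hl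
    have hLr : (L : ℝ) ≤ 3 * Real.log n := by
      have h1 : (2 : ℝ) ^ (Nat.log 2 n) ≤ n := by
        exact_mod_cast Nat.pow_log_le_self 2 (by omega : n ≠ 0)
      have h2 := Real.log_le_log (by positivity) h1
      rw [Real.log_pow] at h2
      have h3 : Real.log 2 ≤ Real.log n := Real.log_le_log (by norm_num) hn'
      rw [hL]
      push_cast
      have h4 : (0 : ℝ) ≤ (Nat.log 2 n : ℝ) := Nat.cast_nonneg _
      nlinarith
    have hL2 : 2 ≤ L := by
      have := Nat.log_pos (b := 2) (by norm_num) hn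
      omega
    have hdL : 2 ≤ d * L := le_trans hL2 (Nat.le_mul_of_pos_left _ (by omega))
    have hl1 : 1 ≤ l := Nat.log_pos (b := 2) (by norm_num) hdL
    have hlr : η * Real.log n ≤ 2 * (Real.log 2 * l) := by
      have h1 : d * L < 2 ^ (l + 1) := Nat.lt_pow_succ_log_self (by norm_num) _
      have h2 : (d : ℝ) ≤ 2 ^ (l + 1) := by
        have : d ≤ d * L := Nat.le_mul_of_pos_right _ (by omega)
        exact_mod_cast this.trans h1.le
      have h3 := Real.log_le_log (by positivity) (hnd.trans h2)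
      rw [Real.log_rpow (by linarith), Real.log_pow] at h3
      push_cast at h3
      have h4 : (1 : ℝ) ≤ l := by exact_mod_cast hl1
      nlinarith
    have hJ : ((q * L / l + 1 : ℕ) : ℝ) ≤ 6 * q / η := by
      have h0 : (0 : ℝ) < l := by
        have : (1 : ℝ) ≤ l := by exact_mod_cast hl1
        linarith
      have h1 : ((q * L / l : ℕ) : ℝ) ≤ (q * L : ℝ) / l := by
        have := Nat.cast_div_le (α := ℝ) (m := q * L) (n := l)
        push_cast at this
        exact this
      have h2 : (q * L : ℝ) / l ≤ 4.5 * q / η := by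
        rw [div_le_div_iff₀ h0 hη]
        have h3 : (L : ℝ) * η ≤ 4.5 * l := by
          calc (L : ℝ) * η ≤ 3 * Real.log n * η := mul_le_mul_of_nonneg_right hLr hη.le
            _ = 3 * (η * Real.log n) := by ring
            _ ≤ 3 * (2 * (Real.log 2 * l)) := by linarith
            _ ≤ 4.5 * l := by nlinarith
        nlinarith
      have h3 : 1 ≤ (q : ℝ) / η := by
        rw [le_div_iff₀ hη]
        linarith
      push_cast
      have h4 : 6 * (q : ℝ) / η = 4.5 * q / η + 1.5 * (q / η) := by ring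
      rw [h4]
      linarith
    have h1 : ((Pool.Agent.Y424.LK.twr (s + 1)
        (26 * d * q ^ 2 * L * (q * L / l + 1) + q * (s + 2) ^ 2) : ℕ) : ℝ) ≤ N := by
      rw [twr_cast]
      refine le_trans (tow_mono (s + 1) ?_) hN
      have h2 : (26 : ℝ) * d * (q : ℝ) ^ 2 * L * ((q * L / l + 1 : ℕ) : ℝ) ≤
          max (3 * C₁) 2000 * (q : ℝ) ^ 3 / η * (d * Λ) := by
        calc (26 : ℝ) * d * (q : ℝ) ^ 2 * L * ((q * L / l + 1 : ℕ) : ℝ)
            ≤ 26 * d * (q : ℝ) ^ 2 * (3 * Real.log n) * (6 * q / η) := by gcongr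
          _ ≤ 26 * d * (q : ℝ) ^ 2 * (3 * (4 * Λ)) * (6 * q / η) := by gcongr
          _ = 1872 * (q : ℝ) ^ 3 / η * (d * Λ) := by ring
          _ ≤ max (3 * C₁) 2000 * (q : ℝ) ^ 3 / η * (d * Λ) := by
              have : (1872 : ℝ) ≤ max (3 * C₁) 2000 := le_trans (by norm_num) (le_max_right _ _)
              gcongr
      have h3 : (q : ℝ) * ((s : ℝ) + 2) ^ 2 ≤ q * ((s : ℝ) + 3) ^ 2 := by gcongr; norm_num
      push_cast at h2 ⊢
      linarith
    exact_mod_cast h1

end Pool.Agent.T3h47.PC
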