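import Pool.Agent.T3h47.PC.Count
import Pool.Agent.T3h47.CD.Delta

/-!
# Patterns of a stepped-up colouring
-/

set_option autoImplicit false

namespace Pool.Agent.T3h47.PC

open Finset Pool.Agent.T3h47.CD Pool.Agent.N584.TI

variable {κ κ' : Type}

/-- The colour of a `(t + 1)`-subset only depends on the order of the highest differing digits of
its elements and on the colours of their `t`-subsets. -/
def Local (t : ℕ) (c : Finset ℕ → κ) (c' : Finset ℕ → κ') : Prop :=
  ∀ x y : Fin (t + 1) → ℕ, StrictMono x → StrictMono y → ∀ (d : ℕ) (ψ ψ' : Fin d → ℕ),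
    StrictMono ψ → StrictMono ψ' →
    (∀ i j, i < j → ∃ e, del (x i) (x j) = ψ e ∧ del (y i) (y j) = ψ' e) →
    (∀ A : Finset (Fin d), A.card = t → c (A.image ψ) = c (A.image ψ')) →
    c' (univ.image x) = c' (univ.image y)

/-- The digits of neighbours determine all of them. -/
theorem all_pairs {k d : ℕ} {φ φ' : Fin (k + 1) → ℕ} (hφ : StrictMono φ) (hφ' : StrictMono φ')
    {ψ ψ' : Fin d → ℕ} (hψ : StrictMono ψ) (hψ' : StrictMono ψ') {s : Fin k → Fin d}
    (h : ∀ i, del (φ i.castSucc) (φ i.succ) = ψ (s i))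
    (h' : ∀ i, del (φ' i.castSucc) (φ' i.succ) = ψ' (s i)) :
    ∀ a b : Fin (k + 1), a < b → ∃ e, del (φ a) (φ b) = ψ e ∧ del (φ' a) (φ' b) = ψ' e := by
  intro a b
  induction b using Fin.induction with
  | zero => intro hab; exact absurd hab (by simp)
  | succ b ih =>
    intro hab
    rcases (Fin.le_castSucc_iff.2 hab).lt_or_eq with h1 | h1
    · obtain ⟨e, h2, h3⟩ := ih h1
      refine ⟨max e (s b), ?_, ?_⟩
      · rw [del_max (hφ h1) (hφ (Fin.castSucc_lt_succ)), h2, h b, hψ.monotone.map_max]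
      · rw [del_max (hφ' h1) (hφ' (Fin.castSucc_lt_succ)), h3, h' b, hψ'.monotone.map_max]
    · rw [h1]
      exact ⟨s b, h b, h' b⟩

theorem enum_tuple {m k : ℕ} (B : Finset (Fin k)) (hB : B.card = m) :
    ∃ ι : Fin m → Fin k, StrictMono ι ∧ univ.image ι = B := by
  refine ⟨B.orderEmbOfFin hB, (B.orderEmbOfFin hB).strictMono, ?_⟩
  rw [← coe_inj, coe_image, coe_univ, Set.image_univ, range_orderEmbOfFin]

/-- **The number of patterns grows slowly.** -/
theorem step_count [Finite κ] [Finite κ'] {t : ℕ} {c : Finset ℕ → κ} {c' : Finset ℕ → κ'}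
    (h : Local t c c') (m k : ℕ) : patternCount (t + 1) c' (2 ^ m) (k + 1) ≤
      ∑ d : Fin (k + 1), (d : ℕ) ^ k * patternCount t c m d := by
  classical
  let X := Σ d : Fin (k + 1), (Fin k → Fin d) × (patterns t c m d)
  let R : (Finset (Fin (k + 1)) → Option κ') → X → Prop := fun p X =>
    ∃ (φ : Fin (k + 1) → ℕ) (ψ : Fin X.1 → ℕ), StrictMono φ ∧ StrictMono ψ ∧
      p = pattern (t + 1) c' φ ∧ (∀ i, del (φ i.castSucc) (φ i.succ) = ψ (X.2.1 i)) ∧
      X.2.2.1 = pattern t c ψ
  have hex : ∀ p : patterns (t + 1) c' (2 ^ m) (k + 1), ∃ X, R p.1 X := by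
    rintro ⟨p, φ, h1, h2, h3⟩
    set δ : Fin k → ℕ := fun i => del (φ i.castSucc) (φ i.succ) with hδ
    set D : Finset ℕ := univ.image δ with hD
    have hDc : D.card < k + 1 := by
      have : D.card ≤ Fintype.card (Fin k) := card_image_le.trans (by rw [card_univ])
      rw [Fintype.card_fin] at this
      omega
    have hδD : ∀ i, δ i ∈ D := fun i => mem_image_of_mem _ (mem_univ i)
    have hlt : ∀ v ∈ D, v < m := by
      intro v hv
      obtain ⟨i, -, rfl⟩ := mem_image.1 hv
      exact del_lt (h1 (Fin.castSucc_lt_succ)) (h2 _)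
    refine ⟨⟨⟨D.card, hDc⟩, fun i => (D.orderIsoOfFin rfl).symm ⟨δ i, hδD i⟩,
      ⟨pattern t c (D.orderEmbOfFin rfl), D.orderEmbOfFin rfl, (D.orderEmbOfFin rfl).strictMono,
        fun i => hlt _ (orderEmbOfFin_mem D rfl i), rfl⟩⟩, φ, D.orderEmbOfFin rfl, h1,
        (D.orderEmbOfFin rfl).strictMono, h3, ?_, rfl⟩
    intro i
    rw [← coe_orderIsoOfFin_apply, OrderIso.apply_symm_apply]
  choose F hF using hex
  have hinj : Function.Injective F := by
    rintro p p' hp
    obtain ⟨φ, ψ, h1, h2, h3, h4, h5⟩ := hF p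
    have hF' := hF p'
    rw [← hp] at hF'
    obtain ⟨φ', ψ', h1', h2', h3', h4', h5'⟩ := hF'
    apply Subtype.ext
    rw [h3, h3']
    funext B
    unfold pattern
    by_cases hB : B.card = t + 1
    · rw [if_pos hB, if_pos hB]
      congr 1
      obtain ⟨ι, hι, rfl⟩ := enum_tuple B hB
      rw [image_image, image_image]
      refine h (φ ∘ ι) (φ' ∘ ι) (h1.comp hι) (h1'.comp hι) _ ψ ψ' h2 h2' ?_ ?_
      · intro i j hij
        exact all_pairs h1 h1' h2 h2' h4 h4' _ _ (hι hij)
      · intro A hA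
        have h6 : pattern t c ψ A = pattern t c ψ' A := by rw [← h5, ← h5']
        unfold pattern at h6
        rw [if_pos hA, if_pos hA] at h6
        exact Option.some.inj h6
    · rw [if_neg hB, if_neg hB]
  have e1 : ∀ (r N k : ℕ) (κ : Type) [Finite κ] (c : Finset ℕ → κ),
      Nat.card (patterns r c N k) = patternCount r c N k := by
    intro r N k κ _ c
    rw [patternCount, ← Nat.card_coe_set_eq]
  have h6 : Nat.card (patterns (t + 1) c' (2 ^ m) (k + 1)) ≤ Nat.card X :=
    Nat.card_le_card_of_injective F hinj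
  rw [e1] at h6
  refine h6.trans (le_of_eq ?_)
  simp only [X]
  rw [Nat.card_sigma]
  apply sum_congr rfl
  intro d _
  rw [Nat.card_prod, e1, Nat.card_fun, Nat.card_eq_fintype_card, Nat.card_eq_fintype_card,
    Fintype.card_fin, Fintype.card_fin]

theorem patternCount_zero (r : ℕ) (c : Finset ℕ → κ) (N : ℕ) : patternCount r c N 0 ≤ 1 := by
  unfold patternCount
  refine (Set.ncard_le_ncard (t := {pattern r c (Fin.elim0 : Fin 0 → ℕ)}) ?_
    (Set.finite_singleton _)).trans (Set.ncard_singleton _).le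
  rintro p ⟨φ, -, -, rfl⟩
  rw [Set.mem_singleton_iff]
  congr 1
  funext i
  exact i.elim0

/-- Closed form. -/
theorem step_closed [Finite κ] [Finite κ'] {t e : ℕ} {B : ℕ → ℕ} (hB : Monotone B)
    (hB0 : 1 ≤ B 0) {c : Finset ℕ → κ} {c' : Finset ℕ → κ'} (h : Local t c c') (m : ℕ)
    (hc : ∀ k, patternCount t c m k ≤ k ^ (e * k) * B k) (k : ℕ) :
    patternCount (t + 1) c' (2 ^ m) k ≤ k ^ ((e + 1) * k) * B k := by
  rcases Nat.eq_zero_or_pos k with rfl | hk
  · refine (patternCount_zero _ _ _).trans ?_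
    simpa using hB0
  · obtain ⟨k, rfl⟩ : ∃ l, k = l + 1 := ⟨k - 1, by omega⟩
    refine (step_count h m k).trans ?_
    have h1 : ∀ d : Fin (k + 1), (d : ℕ) ^ k * patternCount t c m d ≤
        (k + 1) ^ k * ((k + 1) ^ (e * (k + 1)) * B (k + 1)) := by
      intro d
      have h2 : (d : ℕ) ≤ k + 1 := by omega
      apply Nat.mul_le_mul (Nat.pow_le_pow_left h2 _)
      refine (hc d).trans (Nat.mul_le_mul ?_ (hB h2))
      exact (Nat.pow_le_pow_left h2 _).trans
        (Nat.pow_le_pow_right (by omega) (Nat.mul_le_mul_left _ h2))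
    refine (sum_le_sum fun d _ => h1 d).trans (le_of_eq ?_)
    have e1 : (e + 1) * (k + 1) = (k + 1) + e * (k + 1) := by ring
    rw [sum_const, card_univ, Fintype.card_fin, smul_eq_mul, e1, pow_add, pow_succ]
    ring

/-- All patterns. -/
theorem patternCount_le [Fintype κ] (r : ℕ) (c : Finset ℕ → κ) (N k : ℕ) :
    patternCount r c N k ≤ Fintype.card κ ^ (k.choose r) := by
  classical
  rw [patternCount, ← Nat.card_coe_set_eq]
  let F : patterns r c N k → ({B : Finset (Fin k) // B.card = r} → κ) := fun p B =>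
    c (B.1.image (Classical.choose p.2))
  have hF : Function.Injective F := by
    intro p p' hp
    obtain ⟨-, -, h3⟩ := Classical.choose_spec p.2
    obtain ⟨-, -, h3'⟩ := Classical.choose_spec p'.2
    apply Subtype.ext
    rw [h3, h3']
    funext B
    unfold pattern
    by_cases hB : B.card = r
    · rw [if_pos hB, if_pos hB]
      congr 1
      exact congrFun hp ⟨B, hB⟩
    · rw [if_neg hB, if_neg hB]
  refine (Nat.card_le_card_of_injective F hF).trans (le_of_eq ?_)
  rw [Nat.card_fun, Nat.card_eq_fintype_card, Nat.card_eq_fintype_card]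
  congr 1
  rw [Fintype.card_finset_len, Fintype.card_fin]

end Pool.Agent.T3h47.PC
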